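import Mathlib

open scoped ENNReal

namespace Pool.Agent.Work.MP_cd69b0_an

section lift

variable {𝕜 : Type*} [NontriviallyNormedField 𝕜]
variable {Y : Type*} [NormedAddCommGroup Y] [NormedSpace 𝕜 Y]
variable {ι : Type*} {E : ι → Type*} [∀ i, NormedAddCommGroup (E i)] [∀ i, NormedSpace 𝕜 (E i)]

/-- A uniformly bounded family of operators `Y → E i` gives an operator into the
`ℓ_∞`-sum of the `E i`. -/
noncomputable def lpLift (T : ∀ i, Y →L[𝕜] E i) (C : ℝ) (hC : ∀ i, ‖T i‖ ≤ C) :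
    Y →L[𝕜] lp E ∞ :=
  LinearMap.mkContinuous
    { toFun := fun y => ⟨fun i => T i y, memℓp_infty ⟨C * ‖y‖, by
        rintro _ ⟨i, rfl⟩
        exact (T i).le_of_opNorm_le (hC i) y⟩⟩
      map_add' := fun x y => by
        ext i
        exact map_add (T i) x y
      map_smul' := fun c x => by
        ext i
        exact map_smul (T i) c x }
    (max C 0) (fun y => by
      refine lp.norm_le_of_forall_le (by positivity) fun i => ?_
      refine ((T i).le_of_opNorm_le (hC i) y).trans ?_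
      exact mul_le_mul_of_nonneg_right (le_max_left _ _) (norm_nonneg _))

@[simp] theorem lpLift_apply (T : ∀ i, Y →L[𝕜] E i) (C : ℝ) (hC : ∀ i, ‖T i‖ ≤ C) (y : Y)
    (i : ι) : lpLift T C hC y i = T i y := rfl

theorem norm_lpLift_apply_le (T : ∀ i, Y →L[𝕜] E i) (C : ℝ) (hC : ∀ i, ‖T i‖ ≤ C) (hC0 : 0 ≤ C)
    (y : Y) : ‖lpLift T C hC y‖ ≤ C * ‖y‖ := by
  refine lp.norm_le_of_forall_le (by positivity) fun i => ?_
  exact (T i).le_of_opNorm_le (hC i) y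

/-- Evaluation. -/
noncomputable def lpEval (i : ι) : lp E ∞ →L[𝕜] E i := lp.evalCLM 𝕜 E ∞ i

@[simp] theorem lpEval_apply (i : ι) (x : lp E ∞) : lpEval (𝕜 := 𝕜) i x = x i := rfl

theorem norm_lpEval_le (i : ι) : ‖(lpEval i : lp E ∞ →L[𝕜] E i)‖ ≤ 1 :=
  ContinuousLinearMap.opNorm_le_bound _ zero_le_one fun x => by
    simpa using lp.norm_apply_le_norm ENNReal.top_ne_zero x i

end lift

section pelczynski

/-- `Y` has a complemented subspace isomorphic to `X`. -/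
def IsCompl' (𝕜 : Type*) [NontriviallyNormedField 𝕜] (X Y : Type*) [NormedAddCommGroup X]
    [NormedSpace 𝕜 X] [NormedAddCommGroup Y] [NormedSpace 𝕜 Y] : Prop :=
  ∃ (J : X →L[𝕜] Y) (Q : Y →L[𝕜] X), ∀ x, Q (J x) = x

variable {𝕜 : Type*} [NontriviallyNormedField 𝕜]
variable {X : Type*} [NormedAddCommGroup X] [NormedSpace 𝕜 X]
variable {Y : Type*} [NormedAddCommGroup Y] [NormedSpace 𝕜 Y]
variable {Z : Type*} [NormedAddCommGroup Z] [NormedSpace 𝕜 Z]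
variable {W : Type*} [NormedAddCommGroup W] [NormedSpace 𝕜 W]

theorem IsCompl'.trans (h : IsCompl' 𝕜 X Y) (h' : IsCompl' 𝕜 Y Z) : IsCompl' 𝕜 X Z := by
  obtain ⟨J, Q, hJ⟩ := h
  obtain ⟨J', Q', hJ'⟩ := h'
  exact ⟨J'.comp J, Q.comp Q', fun x => by simp [hJ, hJ']⟩

theorem IsCompl'.exists_prod (h : IsCompl' 𝕜 X Y) :
    ∃ Z : Submodule 𝕜 Y, Nonempty (Y ≃L[𝕜] X × Z) := by
  obtain ⟨J, Q, hJ⟩ := h
  exact ⟨_, ⟨ContinuousLinearEquiv.equivOfRightInverse Q J hJ⟩⟩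

/-- `ℓ_∞(X)`. -/
abbrev Linf (X : Type*) [NormedAddCommGroup X] : Type _ := lp (fun _ : ℕ => X) ∞

/-- Functoriality of `ℓ_∞`. -/
noncomputable def Linf.map (T : X →L[𝕜] Y) : Linf X →L[𝕜] Linf Y :=
  lpLift (fun i => T.comp (lpEval i)) ‖T‖ fun i =>
    (ContinuousLinearMap.opNorm_comp_le _ _).trans
      (mul_le_of_le_one_right (norm_nonneg _) (norm_lpEval_le i))

@[simp] theorem Linf.map_apply (T : X →L[𝕜] Y) (x : Linf X) (i : ℕ) :
    Linf.map T x i = T (x i) := rfl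

theorem Linf.congr (e : X ≃L[𝕜] Y) : Nonempty (Linf X ≃L[𝕜] Linf Y) :=
  ⟨ContinuousLinearEquiv.equivOfInverse (Linf.map e.toContinuousLinearMap)
    (Linf.map e.symm.toContinuousLinearMap)
    (fun x => by ext i; simp) (fun x => by ext i; simp)⟩

theorem Linf.prod : Nonempty (Linf (X × Y) ≃L[𝕜] Linf X × Linf Y) := by
  refine ⟨ContinuousLinearEquiv.equivOfInverse
    ((Linf.map (ContinuousLinearMap.fst 𝕜 X Y)).prod (Linf.map (ContinuousLinearMap.snd 𝕜 X Y)))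
    (lpLift (fun i => ((lpEval i).comp (ContinuousLinearMap.fst 𝕜 (Linf X) (Linf Y))).prod
      ((lpEval i).comp (ContinuousLinearMap.snd 𝕜 (Linf X) (Linf Y)))) 1 ?_) ?_ ?_⟩
  · intro i
    refine ContinuousLinearMap.opNorm_le_bound _ zero_le_one fun x => ?_
    rw [one_mul]
    refine max_le ?_ ?_
    · exact (lp.norm_apply_le_norm ENNReal.top_ne_zero x.1 i).trans (norm_fst_le x)
    · exact (lp.norm_apply_le_norm ENNReal.top_ne_zero x.2 i).trans (norm_snd_le x)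
  · intro x
    ext i <;> simp
  · intro x
    ext i <;> simp

theorem Linf.cons : Nonempty (Linf X ≃L[𝕜] X × Linf X) := by
  refine ⟨ContinuousLinearEquiv.equivOfInverse
    ((lpEval 0).prod (lpLift (fun i => lpEval (i + 1)) 1 fun i => norm_lpEval_le _))
    (lpLift (fun i => Nat.casesOn i (ContinuousLinearMap.fst 𝕜 X (Linf X))
      (fun j => (lpEval j).comp (ContinuousLinearMap.snd 𝕜 X (Linf X)))) 1 ?_) ?_ ?_⟩
  · rintro (_ | i)
    · exact ContinuousLinearMap.norm_fst_le _ _ _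
    · refine (ContinuousLinearMap.opNorm_comp_le _ _).trans ?_
      exact mul_le_one₀ (norm_lpEval_le i) (norm_nonneg _) (ContinuousLinearMap.norm_snd_le _ _ _)
  · intro x
    ext i
    rcases i with (_ | i) <;> simp
  · intro x
    ext i <;> simp

/-- Pelczynski's decomposition method for `ℓ_∞`-sums. -/
theorem pelczynski (hXY : IsCompl' 𝕜 X Y) (hYX : IsCompl' 𝕜 Y X)
    (hY : Nonempty (Y ≃L[𝕜] Linf Y)) : Nonempty (X ≃L[𝕜] Y) := by
  obtain ⟨Z, ⟨eZ⟩⟩ := hXY.exists_prod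
  obtain ⟨W, ⟨eW⟩⟩ := hYX.exists_prod
  obtain ⟨eY⟩ := hY
  obtain ⟨c1⟩ := Linf.congr eZ
  obtain ⟨c2⟩ := Linf.prod (𝕜 := 𝕜) (X := X) (Y := Z)
  obtain ⟨c3⟩ := Linf.cons (𝕜 := 𝕜) (X := X)
  obtain ⟨c4⟩ := Linf.cons (𝕜 := 𝕜) (X := Y)
  -- `Y ≃ ℓ_∞(X) × ℓ_∞(Z)`
  let e1 : Y ≃L[𝕜] Linf X × Linf Z := (eY.trans c1).trans c2
  -- `X × Y ≃ Y`
  let e2 : (X × Y) ≃L[𝕜] Y :=
    (((ContinuousLinearEquiv.refl 𝕜 X).prodCongr e1).trans
      (ContinuousLinearEquiv.prodAssoc 𝕜 X (Linf X) (Linf Z)).symm).trans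
      ((c3.symm.prodCongr (ContinuousLinearEquiv.refl 𝕜 (Linf Z))).trans e1.symm)
  -- `Y × Y ≃ Y`
  let e3 : (Y × Y) ≃L[𝕜] Y :=
    ((ContinuousLinearEquiv.refl 𝕜 Y).prodCongr eY).trans (c4.symm.trans eY.symm)
  -- `X ≃ Y × X`
  let e4 : X ≃L[𝕜] Y × X :=
    ((eW.trans (e3.symm.prodCongr (ContinuousLinearEquiv.refl 𝕜 W))).trans
      (ContinuousLinearEquiv.prodAssoc 𝕜 Y Y W)).trans
      ((ContinuousLinearEquiv.refl 𝕜 Y).prodCongr eW.symm)
  exact ⟨(e4.trans (ContinuousLinearEquiv.prodComm 𝕜 Y X)).trans e2⟩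

end pelczynski

end Pool.Agent.Work.MP_cd69b0_an
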