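import Mathlib
import Pool.Agent.Work.MP_cd69b0_an.Pelczynski

open scoped ENNReal

set_option linter.unusedSectionVars false

namespace Pool.Agent.Work.MP_cd69b0_an

variable {𝕜 : Type*} [RCLike 𝕜] {r : ℝ≥0∞} [hr1 : Fact (1 ≤ r)]

theorem toReal_pos_of (hr : r ≠ ∞) : 0 < r.toReal :=
  ENNReal.toReal_pos (fun h => by have := hr1.out; rw [h] at this; simp at this) hr

/-- The finite-dimensional space `ℓ_r^n`. -/
abbrev El (𝕜 : Type*) (r : ℝ≥0∞) (n : ℕ) : Type _ := PiLp r (fun _ : Fin n => 𝕜)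

/-- Restrict or pad by zeros. -/
noncomputable def resizeFun (n m : ℕ) (x : El 𝕜 r n) : El 𝕜 r m :=
  WithLp.toLp r (fun j : Fin m => if h : (j : ℕ) < n then x ⟨j, h⟩ else 0)

theorem resizeFun_apply (n m : ℕ) (x : El 𝕜 r n) (j : Fin m) :
    resizeFun n m x j = if h : (j : ℕ) < n then x ⟨j, h⟩ else 0 := rfl

theorem norm_resizeFun_le (hr : r ≠ ∞) (n m : ℕ) (x : El 𝕜 r n) :
    ‖resizeFun n m x‖ ≤ ‖x‖ := by
  have hp := toReal_pos_of hr
  rw [PiLp.norm_eq_sum hp, PiLp.norm_eq_sum hp]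
  refine Real.rpow_le_rpow (Finset.sum_nonneg fun _ _ => by positivity) ?_ (by positivity)
  set φ : ℕ → ℝ := fun j => if h : j < n then ‖x ⟨j, h⟩‖ ^ r.toReal else 0 with hφ
  have hφ0 : ∀ j, 0 ≤ φ j := fun j => by
    simp only [hφ]; split_ifs <;> positivity
  have h1 : ∀ j : Fin m, ‖resizeFun n m x j‖ ^ r.toReal = φ j := fun j => by
    simp only [hφ, resizeFun_apply]
    split_ifs with h
    · rfl
    · rw [norm_zero, Real.zero_rpow hp.ne']
  have h2 : ∀ j : Fin n, ‖x j‖ ^ r.toReal = φ j := fun j => by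
    simp only [hφ, j.2, dif_pos]
  rw [Finset.sum_congr rfl fun j _ => h1 j, Finset.sum_congr rfl fun j _ => h2 j,
    Fin.sum_univ_eq_sum_range, Fin.sum_univ_eq_sum_range]
  calc ∑ i ∈ Finset.range m, φ i ≤ ∑ i ∈ Finset.range (max m n), φ i :=
        Finset.sum_le_sum_of_subset_of_nonneg (Finset.range_mono (le_max_left _ _))
          fun i _ _ => hφ0 i
    _ = ∑ i ∈ Finset.range n, φ i := by
        refine (Finset.sum_subset (Finset.range_mono (le_max_right _ _)) fun i _ hi => ?_).symm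
        simp only [Finset.mem_range] at hi
        simp [hφ, hi]

/-- Restrict or pad by zeros, as an operator. -/
noncomputable def resize (hr : r ≠ ∞) (n m : ℕ) : El 𝕜 r n →L[𝕜] El 𝕜 r m :=
  LinearMap.mkContinuous
    { toFun := resizeFun n m
      map_add' := fun x y => by
        ext j
        simp only [resizeFun_apply, PiLp.add_apply]
        split_ifs <;> simp
      map_smul' := fun c x => by
        ext j
        simp only [resizeFun_apply, PiLp.smul_apply, RingHom.id_apply]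
        split_ifs <;> simp }
    1 (fun x => by simpa using norm_resizeFun_le hr n m x)

theorem resize_apply (hr : r ≠ ∞) (n m : ℕ) (x : El 𝕜 r n) : resize hr n m x = resizeFun n m x :=
  rfl

theorem norm_resize_le (hr : r ≠ ∞) (n m : ℕ) : ‖(resize hr n m : El 𝕜 r n →L[𝕜] El 𝕜 r m)‖ ≤ 1 :=
  LinearMap.mkContinuous_norm_le _ zero_le_one _

theorem resize_resize (hr : r ≠ ∞) {n m : ℕ} (h : n ≤ m) (x : El 𝕜 r n) :
    resize hr m n (resize hr n m x) = x := by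
  ext j
  have h1 : (j : ℕ) < m := lt_of_lt_of_le j.2 h
  simp [resize_apply, resizeFun_apply, h1]

/-- The `ℓ_∞`-sum of the spaces `ℓ_r^{n i}`. -/
abbrev Bsp (𝕜 : Type*) [RCLike 𝕜] (r : ℝ≥0∞) [Fact (1 ≤ r)] {ι : Type*} (n : ι → ℕ) : Type _ :=
  lp (fun i => El 𝕜 r (n i)) ∞

open Classical in
theorem Bsp.compl (hr : r ≠ ∞) {ι κ : Type*} (n : ι → ℕ) (m : κ → ℕ) (σ : ι → κ)
    (hσ : Function.Injective σ) (h : ∀ i, n i ≤ m (σ i)) :
    IsCompl' 𝕜 (Bsp 𝕜 r n) (Bsp 𝕜 r m) := by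
  refine ⟨lpLift (fun k => if hk : ∃ i, σ i = k then
      (resize hr (n hk.choose) (m k)).comp (lpEval hk.choose) else 0) 1 ?_,
    lpLift (fun i => (resize hr (m (σ i)) (n i)).comp (lpEval (σ i))) 1 ?_, ?_⟩
  · intro k
    split_ifs with hk
    · refine (ContinuousLinearMap.opNorm_comp_le _ _).trans ?_
      exact mul_le_one₀ (norm_resize_le _ _ _) (norm_nonneg _) (norm_lpEval_le _)
    · simp
  · intro i
    refine (ContinuousLinearMap.opNorm_comp_le _ _).trans ?_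
    exact mul_le_one₀ (norm_resize_le _ _ _) (norm_nonneg _) (norm_lpEval_le _)
  · intro x
    ext i : 2
    have hk : ∃ j, σ j = σ i := ⟨i, rfl⟩
    have hi : hk.choose = i := hσ hk.choose_spec
    simp only [lpLift_apply, ContinuousLinearMap.comp_apply, lpEval_apply, dif_pos hk]
    have : ∀ j, j = i → resize hr (m (σ i)) (n i) (resize hr (n j) (m (σ i)) (x j)) = x i := by
      rintro j rfl
      exact resize_resize hr (h j) _
    exact this _ hi

/-- The space `U`: countably many copies of each `ℓ_r^{n+1}`. -/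
abbrev Usp (𝕜 : Type*) [RCLike 𝕜] (r : ℝ≥0∞) [Fact (1 ≤ r)] : Type _ :=
  Bsp 𝕜 r (fun p : ℕ × ℕ => p.2 + 1)

/-- Coordinate `(i, n)` of `U`, as a map into `ℓ_r^{n+1}`. -/
noncomputable def Usp.ev (i n : ℕ) : Usp 𝕜 r →L[𝕜] El 𝕜 r (n + 1) :=
  lpEval (E := fun p : ℕ × ℕ => El 𝕜 r (p.2 + 1)) (i, n)

theorem Usp.ev_apply (i n : ℕ) (x : Usp 𝕜 r) : Usp.ev i n x = x (i, n) := rfl

theorem Usp.norm_ev_le (i n : ℕ) : ‖(Usp.ev i n : Usp 𝕜 r →L[𝕜] El 𝕜 r (n + 1))‖ ≤ 1 :=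
  norm_lpEval_le _

theorem Usp.linf : Nonempty (Usp 𝕜 r ≃L[𝕜] Linf (Usp 𝕜 r)) := by
  refine ⟨ContinuousLinearEquiv.equivOfInverse
    (lpLift (fun k => lpLift (fun p : ℕ × ℕ => Usp.ev (Nat.pair k p.1) p.2) 1
      fun p => Usp.norm_ev_le _ _) 1 ?_)
    (lpLift (fun p : ℕ × ℕ => (Usp.ev (Nat.unpair p.1).2 p.2).comp
      (lpEval (Nat.unpair p.1).1)) 1 ?_) ?_ ?_⟩
  · intro k
    refine ContinuousLinearMap.opNorm_le_bound _ zero_le_one fun x => ?_
    exact norm_lpLift_apply_le _ _ _ zero_le_one x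
  · intro p
    refine (ContinuousLinearMap.opNorm_comp_le _ _).trans ?_
    exact mul_le_one₀ (Usp.norm_ev_le _ _) (norm_nonneg _) (norm_lpEval_le _)
  · intro x
    ext p : 2
    obtain ⟨i, n⟩ := p
    simp only [lpLift_apply, ContinuousLinearMap.comp_apply, lpEval_apply, Usp.ev_apply]
    have : ∀ j, j = i → x (j, n) = x (i, n) := by rintro j rfl; rfl
    exact this _ (Nat.pair_unpair i)
  · intro x
    ext k : 2
    ext p : 2
    obtain ⟨i, n⟩ := p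
    simp only [lpLift_apply, ContinuousLinearMap.comp_apply, lpEval_apply, Usp.ev_apply]
    have : ∀ j k' : ℕ, k' = k → j = i → x k' (j, n) = x k (i, n) := by
      rintro j k' rfl rfl; rfl
    exact this _ _ (by simp) (by simp)

/-- The space `B_{r,∞}`. -/
abbrev Binf (𝕜 : Type*) [RCLike 𝕜] (r : ℝ≥0∞) [Fact (1 ≤ r)] : Type _ :=
  lp (fun n : ℕ+ => PiLp r (fun _ : Fin n => 𝕜)) ∞

theorem Usp.compl_Binf (hr : r ≠ ∞) : IsCompl' 𝕜 (Usp 𝕜 r) (Binf 𝕜 r) := by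
  refine Bsp.compl hr (fun p : ℕ × ℕ => p.2 + 1) (fun n : ℕ+ => (n : ℕ))
    (fun p => ⟨Nat.pair p.1 p.2 + 1, Nat.succ_pos _⟩) ?_ ?_
  · rintro ⟨a, b⟩ ⟨c, d⟩ h
    have h' : Nat.pair a b + 1 = Nat.pair c d + 1 := congrArg Subtype.val h
    have := (Nat.pair_eq_pair.1 (Nat.succ_injective h'))
    simp [this]
  · intro p
    exact Nat.succ_le_succ (Nat.right_le_pair _ _)

theorem Binf.compl_Usp (hr : r ≠ ∞) : IsCompl' 𝕜 (Binf 𝕜 r) (Usp 𝕜 r) := by
  refine Bsp.compl hr (fun n : ℕ+ => (n : ℕ)) (fun p : ℕ × ℕ => p.2 + 1)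
    (fun n => (0, n.natPred)) ?_ ?_
  · intro n m h
    have : n.natPred = m.natPred := (Prod.ext_iff.1 h).2
    exact PNat.natPred_injective this
  · intro n
    show (n : ℕ) ≤ n.natPred + 1
    rw [PNat.natPred_add_one]

theorem Binf_equiv_Usp (hr : r ≠ ∞) : Nonempty (Binf 𝕜 r ≃L[𝕜] Usp 𝕜 r) :=
  pelczynski (Binf.compl_Usp hr) (Usp.compl_Binf hr) Usp.linf

/-- If `X` and `U` are complemented in each other then `X ≃ B_{r,∞}`. -/
theorem equiv_Binf (hr : r ≠ ∞) {X : Type*} [NormedAddCommGroup X] [NormedSpace 𝕜 X]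
    (h1 : IsCompl' 𝕜 X (Usp 𝕜 r)) (h2 : IsCompl' 𝕜 (Binf 𝕜 r) X) :
    Nonempty (X ≃L[𝕜] Binf 𝕜 r) := by
  obtain ⟨e⟩ := pelczynski h1 ((Usp.compl_Binf hr).trans h2) Usp.linf
  obtain ⟨e'⟩ := Binf_equiv_Usp (𝕜 := 𝕜) hr
  exact ⟨e.trans e'.symm⟩

end Pool.Agent.Work.MP_cd69b0_an
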