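import Mathlib
import Pool.Agent.Work.MP_cd69b0_an.Spaces

open scoped ENNReal
open MeasureTheory

set_option linter.unusedSectionVars false

namespace Pool.Agent.Work.MP_cd69b0_an

variable {𝕜 : Type*} [RCLike 𝕜] {r : ℝ≥0∞} [hr1 : Fact (1 ≤ r)]
variable {Ω : Type*} [MeasurableSpace Ω] (μ : Measure Ω) [IsProbabilityMeasure μ]

/-- Mass of an atom. -/
noncomputable def atomR (d : Ω → ℕ) (b : ℕ) : ℝ := μ.real (d ⁻¹' {b})

theorem atomR_nonneg (d : Ω → ℕ) (b : ℕ) : 0 ≤ atomR μ d b := measureReal_nonneg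

/-- Values of the step function. -/
noncomputable def stepVal (d : Ω → ℕ) (N : ℕ) (x : El 𝕜 r N) (b : ℕ) : 𝕜 :=
  if h : b < N then ((atomR μ d b ^ (-(1 / r.toReal)) : ℝ) : 𝕜) * x ⟨b, h⟩ else 0

theorem lintegral_stepVal_le (hr : r ≠ ∞) {d : Ω → ℕ} (hd : Measurable d) (N : ℕ)
    (x : El 𝕜 r N) :
    ∫⁻ s, ‖stepVal μ d N x (d s)‖ₑ ^ r.toReal ∂μ ≤ ∑ b : Fin N, ‖x b‖ₑ ^ r.toReal := by
  have hp := toReal_pos_of hr
  have h1 : ∫⁻ s, ‖stepVal μ d N x (d s)‖ₑ ^ r.toReal ∂μ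
      = ∑' b, ‖stepVal μ d N x b‖ₑ ^ r.toReal * μ (d ⁻¹' {b}) := by
    rw [← lintegral_map (f := fun b => ‖stepVal μ d N x b‖ₑ ^ r.toReal)
      (measurable_of_countable _) hd, lintegral_countable']
    refine tsum_congr fun b => ?_
    rw [Measure.map_apply hd (measurableSet_singleton b)]
  rw [h1, tsum_eq_sum (s := Finset.range N)]
  · rw [← Fin.sum_univ_eq_sum_range (fun b => ‖stepVal μ d N x b‖ₑ ^ r.toReal * μ (d ⁻¹' {b})) N]
    refine Finset.sum_le_sum fun b _ => ?_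
    simp only [stepVal, b.2, dif_pos, Fin.eta]
    rcases eq_or_ne (μ (d ⁻¹' {(b : ℕ)})) 0 with h0 | h0
    · rw [h0, mul_zero]; exact zero_le
    · have hpos : 0 < atomR μ d b := by
        rw [atomR, Measure.real]
        exact ENNReal.toReal_pos h0 (measure_ne_top _ _)
      rw [enorm_mul, ENNReal.mul_rpow_of_nonneg _ _ hp.le]
      have h2 : ‖((atomR μ d b ^ (-(1 / r.toReal)) : ℝ) : 𝕜)‖ₑ ^ r.toReal
          = ENNReal.ofReal ((atomR μ d b)⁻¹) := by
        rw [← ofReal_norm, ENNReal.ofReal_rpow_of_nonneg (norm_nonneg _) hp.le]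
        congr 1
        rw [RCLike.norm_ofReal, abs_of_nonneg (by positivity), ← Real.rpow_mul hpos.le]
        rw [show -(1 / r.toReal) * r.toReal = -1 by field_simp, Real.rpow_neg_one]
      have h3 : μ (d ⁻¹' {(b : ℕ)}) = ENNReal.ofReal (atomR μ d b) := by
        rw [atomR, Measure.real, ENNReal.ofReal_toReal (measure_ne_top _ _)]
      rw [h2, h3, mul_right_comm, ← ENNReal.ofReal_mul (by positivity),
        inv_mul_cancel₀ hpos.ne', ENNReal.ofReal_one, one_mul]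
  · intro b hb
    simp only [Finset.mem_range, not_lt] at hb
    simp [stepVal, hb.not_gt, hp]

theorem sum_enorm_rpow_eq (hr : r ≠ ∞) (N : ℕ) (x : El 𝕜 r N) :
    ∑ b : Fin N, ‖x b‖ₑ ^ r.toReal = ‖x‖ₑ ^ r.toReal := by
  have hp := toReal_pos_of hr
  rw [← ofReal_norm, ENNReal.ofReal_rpow_of_nonneg (norm_nonneg _) hp.le,
    PiLp.norm_eq_sum hp, ← Real.rpow_mul (Finset.sum_nonneg fun _ _ => by positivity)]
  rw [show 1 / r.toReal * r.toReal = 1 by field_simp, Real.rpow_one,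
    ENNReal.ofReal_sum_of_nonneg fun _ _ => by positivity]
  refine Finset.sum_congr rfl fun b _ => ?_
  rw [← ofReal_norm, ENNReal.ofReal_rpow_of_nonneg (norm_nonneg _) hp.le]

theorem r_ne_zero : r ≠ 0 := fun h => by have := hr1.out; rw [h] at this; simp at this

theorem eLpNorm_step_le (hr : r ≠ ∞) {d : Ω → ℕ} (hd : Measurable d) (N : ℕ)
    (x : El 𝕜 r N) :
    eLpNorm (fun s => stepVal μ d N x (d s)) r μ ≤ ‖x‖ₑ := by
  have hp := toReal_pos_of hr
  rw [eLpNorm_eq_lintegral_rpow_enorm_toReal (r_ne_zero) hr]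
  refine (ENNReal.rpow_le_rpow (lintegral_stepVal_le μ hr hd N x) (by positivity)).trans ?_
  rw [sum_enorm_rpow_eq hr, ← ENNReal.rpow_mul]
  rw [show r.toReal * (1 / r.toReal) = 1 by field_simp, ENNReal.rpow_one]

theorem memLp_step (hr : r ≠ ∞) {d : Ω → ℕ} (hd : Measurable d) (N : ℕ) (x : El 𝕜 r N) :
    MemLp (fun s => stepVal μ d N x (d s)) r μ :=
  ⟨((measurable_of_countable (stepVal μ d N x)).comp hd).aestronglyMeasurable,
    (eLpNorm_step_le μ hr hd N x).trans_lt (by simp)⟩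

/-- The embedding `ι : ℓ_r^N → L_r`. -/
noncomputable def iotaL (hr : r ≠ ∞) {d : Ω → ℕ} (hd : Measurable d) (N : ℕ) :
    El 𝕜 r N →L[𝕜] Lp 𝕜 r μ :=
  LinearMap.mkContinuous
    { toFun := fun x => (memLp_step μ hr hd N x).toLp _
      map_add' := fun x y => by
        rw [← MemLp.toLp_add]
        refine MemLp.toLp_congr _ _ (Filter.Eventually.of_forall fun s => ?_)
        simp only [stepVal, Pi.add_apply, PiLp.add_apply]
        split_ifs <;> ring
      map_smul' := fun c x => by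
        rw [RingHom.id_apply, ← MemLp.toLp_const_smul]
        refine MemLp.toLp_congr _ _ (Filter.Eventually.of_forall fun s => ?_)
        simp only [stepVal, Pi.smul_apply, PiLp.smul_apply, smul_eq_mul]
        split_ifs <;> ring }
    1 (fun x => by
      rw [one_mul]
      show ‖(memLp_step μ hr hd N x).toLp _‖ ≤ ‖x‖
      rw [Lp.norm_toLp]
      refine ENNReal.toReal_le_of_le_ofReal (norm_nonneg _) ?_
      rw [ofReal_norm]
      exact eLpNorm_step_le μ hr hd N x)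

theorem iotaL_apply (hr : r ≠ ∞) {d : Ω → ℕ} (hd : Measurable d) (N : ℕ) (x : El 𝕜 r N) :
    iotaL μ hr hd N x = (memLp_step μ hr hd N x).toLp _ := rfl

theorem norm_iotaL_le (hr : r ≠ ∞) {d : Ω → ℕ} (hd : Measurable d) (N : ℕ) :
    ‖(iotaL μ hr hd N : El 𝕜 r N →L[𝕜] Lp 𝕜 r μ)‖ ≤ 1 :=
  LinearMap.mkContinuous_norm_le _ zero_le_one _

theorem coeFn_iotaL (hr : r ≠ ∞) {d : Ω → ℕ} (hd : Measurable d) (N : ℕ) (x : El 𝕜 r N) :
    iotaL μ hr hd N x =ᵐ[μ] fun s => stepVal μ d N x (d s) :=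
  MemLp.coeFn_toLp (memLp_step μ hr hd N x)

/-- The integral over a measurable set as a functional on `L_r`. -/
theorem integrable_Lp {p : ℝ≥0∞} (hp : 1 ≤ p) {E : Type*} [NormedAddCommGroup E] (u : Lp E p μ) :
    Integrable u μ := (Lp.memLp u).integrable hp

theorem enorm_setIntegral_le (hr : r ≠ ∞) (u : Lp 𝕜 r μ) (A : Set Ω) :
    ‖∫ s in A, u s ∂μ‖ₑ ≤ (∫⁻ s in A, ‖u s‖ₑ ^ r.toReal ∂μ) ^ (1 / r.toReal)
      * μ A ^ (1 - 1 / r.toReal) := by
  refine (enorm_integral_le_lintegral_enorm _).trans ?_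
  have h := eLpNorm_le_eLpNorm_mul_rpow_measure_univ (μ := μ.restrict A) (f := (u : Ω → 𝕜))
    hr1.out (Lp.aestronglyMeasurable u).restrict
  rw [eLpNorm_one_eq_lintegral_enorm, eLpNorm_eq_lintegral_rpow_enorm_toReal (r_ne_zero) hr,
    Measure.restrict_apply_univ] at h
  simpa using h

/-- Coordinates of the operator `π : L_r → ℓ_r^N`. -/
noncomputable def piFun (d : Ω → ℕ) (N : ℕ) (u : Lp 𝕜 r μ) : El 𝕜 r N :=
  WithLp.toLp r fun b : Fin N =>
    ((atomR μ d b ^ (1 / r.toReal - 1) : ℝ) : 𝕜) * ∫ s in d ⁻¹' {(b : ℕ)}, u s ∂μ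

theorem piFun_apply (d : Ω → ℕ) (N : ℕ) (u : Lp 𝕜 r μ) (b : Fin N) :
    piFun μ d N u b
      = ((atomR μ d b ^ (1 / r.toReal - 1) : ℝ) : 𝕜) * ∫ s in d ⁻¹' {(b : ℕ)}, u s ∂μ := rfl

theorem enorm_piFun_le (hr : r ≠ ∞) {d : Ω → ℕ} (hd : Measurable d) (N : ℕ) (u : Lp 𝕜 r μ) :
    ‖piFun μ d N u‖ₑ ≤ ‖u‖ₑ := by
  have hp := toReal_pos_of hr
  have key : ‖piFun μ d N u‖ₑ ^ r.toReal ≤ ‖u‖ₑ ^ r.toReal := by
    rw [← sum_enorm_rpow_eq hr]
    have h1 : ‖u‖ₑ ^ r.toReal = ∫⁻ s, ‖u s‖ₑ ^ r.toReal ∂μ := by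
      rw [Lp.enorm_def, eLpNorm_eq_lintegral_rpow_enorm_toReal (r_ne_zero) hr, ← ENNReal.rpow_mul,
        show 1 / r.toReal * r.toReal = 1 by field_simp, ENNReal.rpow_one]
    rw [h1]
    calc ∑ b : Fin N, ‖piFun μ d N u b‖ₑ ^ r.toReal
        ≤ ∑ b : Fin N, ∫⁻ s in d ⁻¹' {(b : ℕ)}, ‖u s‖ₑ ^ r.toReal ∂μ := by
          refine Finset.sum_le_sum fun b _ => ?_
          rw [piFun_apply]
          rcases eq_or_ne (μ (d ⁻¹' {(b : ℕ)})) 0 with h0 | h0
          · rw [Measure.restrict_eq_zero.2 h0]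
            simp [hp]
          · have hpos : 0 < atomR μ d b := by
              rw [atomR, Measure.real]
              exact ENNReal.toReal_pos h0 (measure_ne_top _ _)
            have h3 : μ (d ⁻¹' {(b : ℕ)}) = ENNReal.ofReal (atomR μ d b) := by
              rw [atomR, Measure.real, ENNReal.ofReal_toReal (measure_ne_top _ _)]
            have h2 : ‖((atomR μ d b ^ (1 / r.toReal - 1) : ℝ) : 𝕜)‖ₑ
                = ENNReal.ofReal (atomR μ d b ^ (1 / r.toReal - 1)) := by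
              rw [← ofReal_norm, RCLike.norm_ofReal, abs_of_nonneg (by positivity)]
            have h4 : ‖((atomR μ d b ^ (1 / r.toReal - 1) : ℝ) : 𝕜) *
                ∫ s in d ⁻¹' {(b : ℕ)}, u s ∂μ‖ₑ
                ≤ (∫⁻ s in d ⁻¹' {(b : ℕ)}, ‖u s‖ₑ ^ r.toReal ∂μ) ^ (1 / r.toReal) := by
              rw [enorm_mul, h2]
              refine (mul_le_mul_right (enorm_setIntegral_le μ hr u _) _).trans ?_
              rw [h3, ENNReal.ofReal_rpow_of_pos hpos, mul_comm, mul_assoc,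
                ← ENNReal.ofReal_mul (by positivity), ← Real.rpow_add hpos]
              simp
            refine (ENNReal.rpow_le_rpow h4 hp.le).trans ?_
            rw [← ENNReal.rpow_mul, show 1 / r.toReal * r.toReal = 1 by field_simp,
              ENNReal.rpow_one]
      _ = ∫⁻ s in ⋃ b ∈ (Finset.univ : Finset (Fin N)), d ⁻¹' {(b : ℕ)},
            ‖u s‖ₑ ^ r.toReal ∂μ := by
          rw [lintegral_biUnion_finset]
          · intro a _ b _ hab
            refine Set.disjoint_left.2 fun s hs hs' => hab ?_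
            simp only [Set.mem_preimage, Set.mem_singleton_iff] at hs hs'
            exact Fin.ext (hs.symm.trans hs')
          · exact fun b _ => hd (measurableSet_singleton _)
      _ ≤ ∫⁻ s, ‖u s‖ₑ ^ r.toReal ∂μ := setLIntegral_le_lintegral _ _
  exact (ENNReal.rpow_le_rpow_iff hp).1 key

/-- The operator `π : L_r → ℓ_r^N`. -/
noncomputable def piL (hr : r ≠ ∞) {d : Ω → ℕ} (hd : Measurable d) (N : ℕ) :
    Lp 𝕜 r μ →L[𝕜] El 𝕜 r N :=
  LinearMap.mkContinuous
    { toFun := fun u => piFun μ d N u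
      map_add' := fun u v => by
        ext b
        simp only [piFun_apply, PiLp.add_apply]
        rw [← mul_add, ← integral_add (integrable_Lp μ hr1.out u).restrict
          (integrable_Lp μ hr1.out v).restrict]
        congr 1
        refine integral_congr_ae (ae_restrict_of_ae ?_)
        filter_upwards [Lp.coeFn_add u v] with s hs
        exact hs
      map_smul' := fun c u => by
        ext b
        simp only [piFun_apply, PiLp.smul_apply, RingHom.id_apply, smul_eq_mul]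
        have h : ∫ s in d ⁻¹' {(b : ℕ)}, (c • u : Lp 𝕜 r μ) s ∂μ
            = c * ∫ s in d ⁻¹' {(b : ℕ)}, u s ∂μ := by
          rw [← integral_const_mul]
          refine integral_congr_ae (ae_restrict_of_ae ?_)
          filter_upwards [Lp.coeFn_smul c u] with s hs
          exact hs
        rw [h, mul_left_comm] }
    1 (fun u => by
      rw [one_mul]
      show ‖piFun μ d N u‖ ≤ ‖u‖
      have := enorm_piFun_le μ hr hd N u
      rwa [← ofReal_norm, ← ofReal_norm,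
        ENNReal.ofReal_le_ofReal_iff (norm_nonneg _)] at this)

theorem piL_apply (hr : r ≠ ∞) {d : Ω → ℕ} (hd : Measurable d) (N : ℕ) (u : Lp 𝕜 r μ)
    (b : Fin N) : piL μ hr hd N u b
      = ((atomR μ d b ^ (1 / r.toReal - 1) : ℝ) : 𝕜) * ∫ s in d ⁻¹' {(b : ℕ)}, u s ∂μ := rfl

theorem norm_piL_le (hr : r ≠ ∞) {d : Ω → ℕ} (hd : Measurable d) (N : ℕ) :
    ‖(piL μ hr hd N : Lp 𝕜 r μ →L[𝕜] El 𝕜 r N)‖ ≤ 1 :=
  LinearMap.mkContinuous_norm_le _ zero_le_one _

end Pool.Agent.Work.MP_cd69b0_an
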