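import Mathlib
import Pool.Agent.Work.MP_cd69b0_an.Maps

open scoped ENNReal Topology
open MeasureTheory Filter

set_option linter.unusedSectionVars false

namespace Pool.Agent.Work.MP_cd69b0_an

variable {𝕜 : Type*} [RCLike 𝕜] {r : ℝ≥0∞} [hr1 : Fact (1 ≤ r)]
variable {Ω : Type*} [MeasurableSpace Ω] (μ : Measure Ω) [IsProbabilityMeasure μ]

/-- The function `F` on the square represents the `L_r`-valued function `f`. -/
def Rep (F : Ω × Ω → 𝕜) (f : Ω → Lp 𝕜 r μ) : Prop :=
  ∀ᵐ t ∂μ, (fun s => F (t, s)) =ᵐ[μ] f t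

variable {μ}

theorem Rep.unique {F F' : Ω × Ω → 𝕜} {f f' : Ω → Lp 𝕜 r μ} (h : Rep μ F f) (h' : Rep μ F' f')
    (hF : F =ᵐ[μ.prod μ] F') : f =ᵐ[μ] f' := by
  filter_upwards [h, h', Measure.ae_ae_of_ae_prod hF] with t h1 h2 h3
  refine Lp.ext ?_
  filter_upwards [h1, h2, h3] with s h1 h2 h3
  rw [← h1, ← h2]
  exact h3

theorem Rep.add {F F' : Ω × Ω → 𝕜} {f f' : Ω → Lp 𝕜 r μ} (h : Rep μ F f) (h' : Rep μ F' f') :
    Rep μ (F + F') (f + f') := by
  filter_upwards [h, h'] with t h1 h2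
  filter_upwards [h1, h2, Lp.coeFn_add (f t) (f' t)] with s h1 h2 h3
  rw [Pi.add_apply, Pi.add_apply, h3, Pi.add_apply, h1, h2]

theorem Rep.const_smul {F : Ω × Ω → 𝕜} {f : Ω → Lp 𝕜 r μ} (h : Rep μ F f) (c : 𝕜) :
    Rep μ (c • F) (c • f) := by
  filter_upwards [h] with t h1
  filter_upwards [h1, Lp.coeFn_smul c (f t)] with s h1 h3
  rw [Pi.smul_apply, Pi.smul_apply, h3, Pi.smul_apply, h1]

theorem Rep.congr_right {F : Ω × Ω → 𝕜} {f f' : Ω → Lp 𝕜 r μ} (h : Rep μ F f)
    (hf : f =ᵐ[μ] f') : Rep μ F f' := by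
  filter_upwards [h, hf] with t h1 h2
  rw [← h2]; exact h1

theorem lintegral_enorm_le_of_Lp (u : Lp 𝕜 r μ) : ∫⁻ s, ‖u s‖ₑ ∂μ ≤ ‖u‖ₑ := by
  rw [← eLpNorm_one_eq_lintegral_enorm, Lp.enorm_def]
  exact eLpNorm_le_eLpNorm_of_exponent_le hr1.out (Lp.aestronglyMeasurable u)

theorem Rep.lintegral_le {F : Ω × Ω → 𝕜} {f : Ω → Lp 𝕜 r μ} (h : Rep μ F f)
    (hF : AEStronglyMeasurable F (μ.prod μ)) :
    ∫⁻ p, ‖F p‖ₑ ∂(μ.prod μ) ≤ ∫⁻ t, ‖f t‖ₑ ∂μ := by
  rw [lintegral_prod _ hF.enorm]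
  refine lintegral_mono_ae ?_
  filter_upwards [h] with t ht
  calc ∫⁻ s, ‖F (t, s)‖ₑ ∂μ = ∫⁻ s, ‖f t s‖ₑ ∂μ := by
        refine lintegral_congr_ae ?_
        filter_upwards [ht] with s hs
        rw [hs]
    _ ≤ ‖f t‖ₑ := lintegral_enorm_le_of_Lp _

/-- Every integrable `L_r`-valued function is represented by an integrable function on the
square. -/
theorem exists_rep {f : Ω → Lp 𝕜 r μ} (hf : Integrable f μ) :
    ∃ F : Ω × Ω → 𝕜, Integrable F (μ.prod μ) ∧ Rep μ F f := by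
  refine Integrable.induction
    (fun f : Ω → Lp 𝕜 r μ => ∃ F : Ω × Ω → 𝕜, Integrable F (μ.prod μ) ∧ Rep μ F f)
    ?_ ?_ ?_ ?_ hf
  · intro c A hA _
    refine ⟨fun p => (A.indicator (fun _ => (1 : 𝕜)) p.1) * c p.2, ?_, ?_⟩
    · exact ((integrable_const (1 : 𝕜)).indicator hA).mul_prod (integrable_Lp μ hr1.out c)
    · refine Eventually.of_forall fun t => ?_
      by_cases ht : t ∈ A
      · simp [ht]
      · simp only [ht, not_false_eq_true, Set.indicator_of_notMem, zero_mul]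
        exact (Lp.coeFn_zero 𝕜 r μ).symm
  · rintro f g _ _ _ ⟨F, hF, hFf⟩ ⟨G, hG, hGg⟩
    exact ⟨F + G, hF.add hG, hFf.add hGg⟩
  · refine IsSeqClosed.isClosed fun f g hf hfg => ?_
    choose F hF hFf using hf
    -- the representing functions form a Cauchy sequence
    have hdist : ∀ k l, edist (hF k).toL1 (hF l).toL1 ≤ edist (f k) (f l) := by
      intro k l
      rw [edist_eq_enorm_sub, edist_eq_enorm_sub, ← Integrable.toL1_sub, Lp.enorm_def,
        Lp.enorm_def]
      have h1 : Rep μ (F k - F l) (f k - f l : Ω → Lp 𝕜 r μ) := by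
        have := (hFf k).add ((hFf l).const_smul (-1))
        simpa [sub_eq_add_neg] using this
      have h2 := h1.lintegral_le ((hF k).sub (hF l)).aestronglyMeasurable
      rw [eLpNorm_one_eq_lintegral_enorm, eLpNorm_one_eq_lintegral_enorm]
      refine le_trans (le_of_eq (lintegral_congr_ae ?_)) (h2.trans (le_of_eq
        (lintegral_congr_ae ?_)))
      · filter_upwards [((hF k).sub (hF l)).coeFn_toL1] with p hp
        rw [hp]
      · filter_upwards [Lp.coeFn_sub (f k) (f l)] with t ht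
        rw [ht]
    have hC : CauchySeq fun k => (hF k).toL1 := by
      have hfC := hfg.cauchySeq
      rw [EMetric.cauchySeq_iff] at hfC ⊢
      intro ε hε
      obtain ⟨N, hN⟩ := hfC ε hε
      exact ⟨N, fun m hm n hn => (hdist m n).trans_lt (hN m hm n hn)⟩
    obtain ⟨G, hG⟩ := cauchySeq_tendsto_of_complete hC
    refine ⟨G, L1.integrable_coeFn G, ?_⟩
    -- measurable majorants
    set a : ℕ → Ω → ℝ≥0∞ := fun k t => ∫⁻ s, ‖G (t, s) - F k (t, s)‖ₑ ∂μ with ha
    set b : ℕ → Ω → ℝ≥0∞ := fun k t => ‖f k t - g t‖ₑ with hb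
    have haM : ∀ k, AEMeasurable (a k) μ := fun k =>
      ((L1.integrable_coeFn G).sub (hF k)).aestronglyMeasurable.enorm.lintegral_prod_right'
    have hbM : ∀ k, AEMeasurable (b k) μ := fun k =>
      ((L1.integrable_coeFn (f k)).sub (L1.integrable_coeFn g)).aestronglyMeasurable.enorm
    have haI : ∀ k, ∫⁻ t, a k t ∂μ = edist G (hF k).toL1 := by
      intro k
      have h1 : ∫⁻ t, a k t ∂μ = ∫⁻ p, ‖G p - F k p‖ₑ ∂(μ.prod μ) :=
        (lintegral_prod _ ((L1.integrable_coeFn G).sub (hF k)).aestronglyMeasurable.enorm).symm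
      rw [h1, edist_eq_enorm_sub, Lp.enorm_def, eLpNorm_one_eq_lintegral_enorm]
      refine lintegral_congr_ae ?_
      filter_upwards [(hF k).coeFn_toL1, Lp.coeFn_sub G (hF k).toL1] with p hp hp'
      rw [hp', Pi.sub_apply, hp]
    have hbI : ∀ k, ∫⁻ t, b k t ∂μ = edist (f k) g := by
      intro k
      rw [edist_eq_enorm_sub, Lp.enorm_def, eLpNorm_one_eq_lintegral_enorm]
      refine lintegral_congr_ae ?_
      filter_upwards [Lp.coeFn_sub (f k) g] with t ht
      rw [ht, Pi.sub_apply]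
    have hlim : Tendsto (fun k => ∫⁻ t, (a k t + b k t) ∂μ) atTop (𝓝 0) := by
      have h1 : ∀ k, ∫⁻ t, (a k t + b k t) ∂μ = edist G (hF k).toL1 + edist (f k) g := by
        intro k
        rw [lintegral_add_left' (haM k), haI, hbI]
      simp_rw [h1]
      have h2 : Tendsto (fun k => edist G (hF k).toL1) atTop (𝓝 0) := by
        have := tendsto_iff_edist_tendsto_0.1 hG
        simpa [edist_comm] using this
      have h3 : Tendsto (fun k => edist (f k) g) atTop (𝓝 0) := tendsto_iff_edist_tendsto_0.1 hfg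
      simpa using h2.add h3
    have hlim0 : ∫⁻ t, liminf (fun k => a k t + b k t) atTop ∂μ = 0 := by
      refine le_antisymm ?_ zero_le
      exact (lintegral_liminf_le' fun k => (haM k).add (hbM k)).trans hlim.liminf_eq.le
    have hae : ∀ᵐ t ∂μ, liminf (fun k => a k t + b k t) atTop = 0 := by
      have hmeas : AEMeasurable (fun t => liminf (fun k => a k t + b k t) atTop) μ := by
        have hk := fun k => (haM k).add (hbM k)
        refine ⟨fun t => liminf (fun k => (hk k).mk _ t) atTop,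
          Measurable.liminf fun k => (hk k).measurable_mk, ?_⟩
        filter_upwards [ae_all_iff.2 fun k => (hk k).ae_eq_mk] with t ht
        congr 1
        ext k
        exact ht k
      exact (lintegral_eq_zero_iff' hmeas).1 hlim0
    have hall : ∀ᵐ t ∂μ, ∀ k, (fun s => F k (t, s)) =ᵐ[μ] f k t := ae_all_iff.2 hFf
    have hGm : ∀ᵐ t ∂μ, AEStronglyMeasurable (fun s => G (t, s)) μ :=
      (L1.integrable_coeFn G).aestronglyMeasurable.prodMk_left
    filter_upwards [hae, hall, hGm] with t h0 h1 h2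
    have hle : ∀ k, ∫⁻ s, ‖G (t, s) - g t s‖ₑ ∂μ ≤ a k t + b k t := by
      intro k
      have h3 : ∫⁻ s, ‖G (t, s) - g t s‖ₑ ∂μ
          ≤ ∫⁻ s, (‖G (t, s) - F k (t, s)‖ₑ + ‖(f k t - g t : Lp 𝕜 r μ) s‖ₑ) ∂μ := by
        refine lintegral_mono_ae ?_
        filter_upwards [h1 k, Lp.coeFn_sub (f k t) (g t)] with s hs hs'
        rw [hs', Pi.sub_apply, ← hs]
        calc ‖G (t, s) - g t s‖ₑ = ‖(G (t, s) - F k (t, s)) + (F k (t, s) - g t s)‖ₑ := by
              congr 1; ring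
          _ ≤ _ := enorm_add_le _ _
      refine h3.trans ?_
      have hm : AEMeasurable (fun s => ‖G (t, s) - F k (t, s)‖ₑ) μ := by
        have h4 : AEStronglyMeasurable (fun s => F k (t, s)) μ :=
          (Lp.aestronglyMeasurable (f k t)).congr (h1 k).symm
        exact (h2.sub h4).enorm
      rw [lintegral_add_left' hm]
      exact add_le_add_right (lintegral_enorm_le_of_Lp _) _
    have hzero : ∫⁻ s, ‖G (t, s) - g t s‖ₑ ∂μ = 0 := by
      refine le_antisymm ?_ zero_le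
      rw [← h0]
      exact le_liminf_of_le (by isBoundedDefault) (Eventually.of_forall hle)
    have hm : AEMeasurable (fun s => ‖G (t, s) - g t s‖ₑ) μ :=
      (h2.sub (Lp.aestronglyMeasurable (g t))).enorm
    filter_upwards [(lintegral_eq_zero_iff' hm).1 hzero] with s hs
    have : ‖G (t, s) - g t s‖ₑ = 0 := hs
    rw [enorm_eq_zero, sub_eq_zero] at this
    exact this
  · rintro f g hfg _ ⟨F, hF, hFf⟩
    exact ⟨F, hF, hFf.congr_right hfg⟩

end Pool.Agent.Work.MP_cd69b0_an
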