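import Mathlib
import Pool.Agent.Work.MP_cd69b0_an.ProdRep

open scoped ENNReal Topology
open MeasureTheory Filter TopologicalSpace

set_option linter.unusedSectionVars false

namespace Pool.Agent.Work.MP_cd69b0_an

/-- A function into a second countable metric space is measurable as soon as all distances are. -/
theorem measurable_of_edist {α β : Type*} [MeasurableSpace α] [PseudoEMetricSpace β]
    [SecondCountableTopology β] [MeasurableSpace β] [BorelSpace β] {f : α → β}
    (h : ∀ u, Measurable fun a => edist (f a) u) : Measurable f := by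
  have hb : IsTopologicalBasis {s : Set β | ∃ (u : β) (ε : ℝ≥0∞), s = Metric.eball u ε} := by
    refine isTopologicalBasis_of_isOpen_of_nhds ?_ ?_
    · rintro _ ⟨u, ε, rfl⟩
      exact Metric.isOpen_eball
    · intro a v hav hv
      obtain ⟨ε, hε, h⟩ := EMetric.isOpen_iff.1 hv a hav
      exact ⟨_, ⟨a, ε, rfl⟩, Metric.mem_eball_self hε, h⟩
  rw [BorelSpace.measurable_eq (α := β), hb.borel_eq_generateFrom]
  refine measurable_generateFrom ?_
  rintro _ ⟨u, ε, rfl⟩
  exact (h u) measurableSet_Iio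

variable {𝕜 : Type*} [RCLike 𝕜] {r : ℝ≥0∞} [hr1 : Fact (1 ≤ r)]
variable {Ω : Type*} [MeasurableSpace Ω] [MeasurableSpace.CountablyGenerated Ω]
  {μ : Measure Ω} [IsProbabilityMeasure μ]

/-- A jointly measurable function whose sections are bounded in `L_r` represents a strongly
measurable bounded `L_r`-valued function. -/
theorem exists_section (hr : r ≠ ∞) {F : Ω × Ω → 𝕜} (hF : AEStronglyMeasurable F (μ.prod μ))
    {C : ℝ} (hC : ∀ᵐ t ∂μ, eLpNorm (fun s => F (t, s)) r μ ≤ ENNReal.ofReal C) (hC0 : 0 ≤ C) :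
    ∃ f : Ω → Lp 𝕜 r μ, AEStronglyMeasurable f μ ∧ Rep μ F f ∧ ∀ᵐ t ∂μ, ‖f t‖ ≤ C := by
  classical
  have hr0 : r ≠ 0 := r_ne_zero
  haveI : Fact (r ≠ ∞) := ⟨hr⟩
  set F' := hF.mk F with hF'
  have hF'm : StronglyMeasurable F' := hF.stronglyMeasurable_mk
  have hsec : ∀ t, StronglyMeasurable fun s => F' (t, s) := fun t =>
    hF'm.comp_measurable measurable_prodMk_left
  set T : Set Ω := {t | eLpNorm (fun s => F' (t, s)) r μ < ∞} with hT
  have hmeasnorm : ∀ u : Ω → 𝕜, StronglyMeasurable u →
      Measurable fun t => eLpNorm (fun s => F' (t, s) - u s) r μ := by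
    intro u hu
    simp_rw [eLpNorm_eq_lintegral_rpow_enorm_toReal hr0 hr]
    have h1 : Measurable fun p : Ω × Ω => ‖F' p - u p.2‖ₑ ^ r.toReal :=
      ((hF'm.sub (hu.comp_measurable measurable_snd)).enorm).pow_const _
    exact (h1.lintegral_prod_right').pow_const _
  have hTm : MeasurableSet T := by
    have := hmeasnorm (fun _ => 0) stronglyMeasurable_const
    simp only [sub_zero] at this
    exact this measurableSet_Iio
  let f : Ω → Lp 𝕜 r μ := fun t =>
    if h : t ∈ T then MemLp.toLp (fun s => F' (t, s)) ⟨(hsec t).aestronglyMeasurable, h⟩ else 0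
  have hf1 : ∀ t (h : t ∈ T), f t = MemLp.toLp (fun s => F' (t, s))
      ⟨(hsec t).aestronglyMeasurable, h⟩ := fun t h => dif_pos h
  have hf2 : ∀ t (_ : t ∉ T), f t = 0 := fun t h => dif_neg h
  letI : MeasurableSpace (Lp 𝕜 r μ) := borel _
  haveI : BorelSpace (Lp 𝕜 r μ) := ⟨rfl⟩
  have hfm : Measurable f := by
    refine measurable_of_edist fun u => ?_
    have hu : StronglyMeasurable (u : Ω → 𝕜) := Lp.stronglyMeasurable u
    have : (fun t => edist (f t) u)
        = fun t => if t ∈ T then eLpNorm (fun s => F' (t, s) - u s) r μ else edist 0 u := by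
      ext t
      split_ifs with h
      · rw [hf1 t h, Lp.edist_def]
        refine eLpNorm_congr_ae ?_
        filter_upwards [MemLp.coeFn_toLp (⟨(hsec t).aestronglyMeasurable, h⟩ :
          MemLp (fun s => F' (t, s)) r μ)] with s hs
        rw [Pi.sub_apply, hs]
      · rw [hf2 t h]
    rw [this]
    exact Measurable.ite hTm (hmeasnorm u hu) measurable_const
  have hrep : Rep μ F f := by
    filter_upwards [Measure.ae_ae_of_ae_prod hF.ae_eq_mk, hC] with t ht hCt
    have h1 : eLpNorm (fun s => F' (t, s)) r μ = eLpNorm (fun s => F (t, s)) r μ :=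
      eLpNorm_congr_ae (by filter_upwards [ht] with s hs using hs.symm)
    have h2 : t ∈ T := by
      show eLpNorm (fun s => F' (t, s)) r μ < ∞
      rw [h1]
      exact hCt.trans_lt ENNReal.ofReal_lt_top
    rw [hf1 t h2]
    filter_upwards [ht, MemLp.coeFn_toLp (⟨(hsec t).aestronglyMeasurable, h2⟩ :
          MemLp (fun s => F' (t, s)) r μ)] with s hs hs'
    rw [hs', hs]
  refine ⟨f, hfm.aestronglyMeasurable, hrep, ?_⟩
  filter_upwards [hrep, hC] with t ht hCt
  rw [Lp.norm_def]
  refine ENNReal.toReal_le_of_le_ofReal hC0 ?_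
  rw [← eLpNorm_congr_ae ht]
  exact hCt

end Pool.Agent.Work.MP_cd69b0_an
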