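import Mathlib
import Pool.Agent.Work.MP_cd69b0_an.Section

open scoped ENNReal Topology NNReal
open MeasureTheory Filter TopologicalSpace

set_option linter.unusedSectionVars false

namespace Pool.Agent.Work.MP_cd69b0_an

/-- A refining sequence of finite measurable partitions generating the `σ`-algebra. -/
structure Scale (Ω : Type*) [mΩ : MeasurableSpace Ω] where
  d : ℕ → Ω → ℕ
  N : ℕ → ℕ
  meas : ∀ n, Measurable (d n)
  lt : ∀ n t, d n t < N n
  mono : ∀ n, ∃ φ : ℕ → ℕ, ∀ t, d n t = φ (d (n + 1) t)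
  gen : mΩ ≤ ⨆ n, MeasurableSpace.comap (d n) ⊤

variable {Ω : Type*} [mΩ : MeasurableSpace Ω] {μ : Measure Ω} [IsProbabilityMeasure μ]

namespace Scale

variable (S : Scale Ω)

/-- The index of the atom of the square. -/
def D (n : ℕ) (p : Ω × Ω) : ℕ × ℕ := (S.d n p.1, S.d n p.2)

theorem measD (n : ℕ) : Measurable (S.D n) :=
  ((S.meas n).comp measurable_fst).prodMk ((S.meas n).comp measurable_snd)

theorem D_mono (n : ℕ) : ∃ Φ : ℕ × ℕ → ℕ × ℕ, ∀ p, S.D n p = Φ (S.D (n + 1) p) := by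
  obtain ⟨φ, hφ⟩ := S.mono n
  exact ⟨fun q => (φ q.1, φ q.2), fun p => by simp [D, hφ]⟩

theorem D_mono' {n m : ℕ} (h : n ≤ m) : ∃ Φ : ℕ × ℕ → ℕ × ℕ, ∀ p, S.D n p = Φ (S.D m p) := by
  induction m, h using Nat.le_induction with
  | base => exact ⟨id, fun p => rfl⟩
  | succ m _ ih =>
    obtain ⟨Φ, hΦ⟩ := ih
    obtain ⟨Φ', hΦ'⟩ := S.D_mono m
    exact ⟨Φ ∘ Φ', fun p => by rw [hΦ, hΦ']; rfl⟩

/-- The filtration on the square. -/
def filt : Filtration ℕ (inferInstance : MeasurableSpace (Ω × Ω)) where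
  seq n := MeasurableSpace.comap (S.D n) ⊤
  mono' := by
    intro n m h
    obtain ⟨Φ, hΦ⟩ := S.D_mono' h
    rintro _ ⟨s, _, rfl⟩
    refine ⟨Φ ⁻¹' s, trivial, ?_⟩
    ext p
    simp [hΦ]
  le' n := by
    rintro _ ⟨s, _, rfl⟩
    exact S.measD n (Set.to_countable s).measurableSet

theorem iSup_filt : ⨆ n, S.filt n = (inferInstance : MeasurableSpace (Ω × Ω)) := by
  refine le_antisymm (iSup_le fun n => S.filt.le n) ?_
  have h1 : ∀ n, MeasurableSpace.comap (S.d n) ⊤ ≤ mΩ := fun n => by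
    rintro _ ⟨s, _, rfl⟩
    exact S.meas n (Set.to_countable s).measurableSet
  have hf : MeasurableSpace.comap (Prod.fst : Ω × Ω → Ω) mΩ ≤ ⨆ n, S.filt n := by
    refine (MeasurableSpace.comap_mono S.gen).trans ?_
    rw [MeasurableSpace.comap_iSup]
    refine iSup_mono fun n => ?_
    rintro _ ⟨_, ⟨s, _, rfl⟩, rfl⟩
    exact ⟨Prod.fst ⁻¹' s, trivial, rfl⟩
  have hs : MeasurableSpace.comap (Prod.snd : Ω × Ω → Ω) mΩ ≤ ⨆ n, S.filt n := by
    refine (MeasurableSpace.comap_mono S.gen).trans ?_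
    rw [MeasurableSpace.comap_iSup]
    refine iSup_mono fun n => ?_
    rintro _ ⟨_, ⟨s, _, rfl⟩, rfl⟩
    exact ⟨Prod.snd ⁻¹' s, trivial, rfl⟩
  exact sup_le hf hs

/-- Atoms. -/
def atom (n : ℕ) (v : ℕ × ℕ) : Set (Ω × Ω) := S.D n ⁻¹' {v}

theorem atom_eq_prod (n : ℕ) (v : ℕ × ℕ) :
    S.atom n v = (S.d n ⁻¹' {v.1}) ×ˢ (S.d n ⁻¹' {v.2}) := by
  ext p
  simp [atom, D, Prod.ext_iff]

theorem measurableSet_atom (n : ℕ) (v : ℕ × ℕ) : MeasurableSet (S.atom n v) :=
  S.measD n (measurableSet_singleton v)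

theorem atom_empty (n : ℕ) (v : ℕ × ℕ) (hv : v ∉ Finset.range (S.N n) ×ˢ Finset.range (S.N n)) :
    S.atom n v = ∅ := by
  ext p
  simp only [atom, Set.mem_preimage, Set.mem_singleton_iff, Set.mem_empty_iff_false, iff_false]
  rintro rfl
  refine hv ?_
  simp [D, S.lt]

theorem disjoint_atom (n : ℕ) : Pairwise (Function.onFun Disjoint (S.atom n)) := by
  intro v w hvw
  refine Set.disjoint_left.2 fun p hp hp' => hvw ?_
  exact (Set.mem_singleton_iff.1 hp).symm.trans hp'

/-- Integral over a set of the filtration, in terms of the atoms. -/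
theorem setIntegral_eq_sum {E : Type*} [NormedAddCommGroup E] [NormedSpace ℝ E] {n : ℕ}
    {f : Ω × Ω → E} (hf : Integrable f (μ.prod μ)) (T : Set (ℕ × ℕ)) [DecidablePred (· ∈ T)] :
    ∫ p in S.D n ⁻¹' T, f p ∂(μ.prod μ)
      = ∑ v ∈ (Finset.range (S.N n) ×ˢ Finset.range (S.N n)).filter (· ∈ T),
          ∫ p in S.atom n v, f p ∂(μ.prod μ) := by
  have h1 : S.D n ⁻¹' T = ⋃ v ∈ (Finset.range (S.N n) ×ˢ Finset.range (S.N n)).filter (· ∈ T),
      S.atom n v := by
    ext p
    simp only [Set.mem_preimage, Finset.mem_filter, Finset.mem_product, Finset.mem_range,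
      Set.mem_iUnion, atom, Set.mem_singleton_iff, exists_prop]
    constructor
    · intro h
      exact ⟨_, ⟨⟨S.lt _ _, S.lt _ _⟩, h⟩, rfl⟩
    · rintro ⟨v, ⟨_, h⟩, hv⟩
      rw [hv]; exact h
  rw [h1, integral_biUnion_finset]
  · exact fun v _ => S.measurableSet_atom n v
  · intro v _ w _ hvw
    exact S.disjoint_atom n hvw
  · exact fun v _ => hf.integrableOn

/-- Two functions have the same integral over the sets of `filt n` if this holds on atoms. -/
theorem setIntegral_congr_of_atom {E : Type*} [NormedAddCommGroup E] [NormedSpace ℝ E] {n : ℕ}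
    {f g : Ω × Ω → E} (hf : Integrable f (μ.prod μ)) (hg : Integrable g (μ.prod μ))
    (h : ∀ v, ∫ p in S.atom n v, f p ∂(μ.prod μ) = ∫ p in S.atom n v, g p ∂(μ.prod μ))
    {s : Set (Ω × Ω)} (hs : MeasurableSet[S.filt n] s) :
    ∫ p in s, f p ∂(μ.prod μ) = ∫ p in s, g p ∂(μ.prod μ) := by
  classical
  obtain ⟨T, _, rfl⟩ := hs
  rw [S.setIntegral_eq_sum hf T, S.setIntegral_eq_sum hg T]
  exact Finset.sum_congr rfl fun v _ => h v

/-- Step functions are measurable. -/
theorem stronglyMeasurable_step {E : Type*} [TopologicalSpace E] (n : ℕ) (H : ℕ × ℕ → E) :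
    StronglyMeasurable[S.filt n] fun p => H (S.D n p) := by
  have h1 : @Measurable _ _ (S.filt n) ⊤ (S.D n) := comap_measurable _
  have h2 : StronglyMeasurable[⊤] H := StronglyMeasurable.of_discrete
  exact h2.comp_measurable h1

theorem exists_bound {E : Type*} [NormedAddCommGroup E] (n : ℕ) (H : ℕ × ℕ → E) :
    ∃ C, ∀ p, ‖H (S.D n p)‖ ≤ C := by
  refine ⟨∑ v ∈ Finset.range (S.N n) ×ˢ Finset.range (S.N n), ‖H v‖, fun p => ?_⟩
  refine Finset.single_le_sum (f := fun v => ‖H v‖) (fun _ _ => norm_nonneg _) ?_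
  simp [D, S.lt]

theorem integrable_step {E : Type*} [NormedAddCommGroup E] (n : ℕ) (H : ℕ × ℕ → E) :
    Integrable (fun p => H (S.D n p)) (μ.prod μ) := by
  obtain ⟨C, hC⟩ := S.exists_bound n H
  exact Integrable.of_bound ((S.stronglyMeasurable_step n H).mono (S.filt.le n)).aestronglyMeasurable
    C (Eventually.of_forall hC)

theorem setIntegral_step {E : Type*} [NormedAddCommGroup E] [NormedSpace ℝ E] [CompleteSpace E]
    (n : ℕ) (H : ℕ × ℕ → E) (v : ℕ × ℕ) :
    ∫ p in S.atom n v, H (S.D n p) ∂(μ.prod μ) = (μ.prod μ).real (S.atom n v) • H v := by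
  rw [setIntegral_congr_fun (g := fun _ => H v) (S.measurableSet_atom n v), setIntegral_const]
  intro p hp
  have : S.D n p = v := hp
  simp [this]

/-- Averages over atoms. -/
noncomputable def avg {E : Type*} [NormedAddCommGroup E] [NormedSpace ℝ E] (μ : Measure Ω)
    (F : Ω × Ω → E) (n : ℕ) (v : ℕ × ℕ) : E :=
  ((μ.prod μ).real (S.atom n v))⁻¹ • ∫ p in S.atom n v, F p ∂(μ.prod μ)

theorem setIntegral_avg {E : Type*} [NormedAddCommGroup E] [NormedSpace ℝ E] [CompleteSpace E]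
    (F : Ω × Ω → E) (n : ℕ) (v : ℕ × ℕ) :
    ∫ p in S.atom n v, S.avg μ F n (S.D n p) ∂(μ.prod μ)
      = ∫ p in S.atom n v, F p ∂(μ.prod μ) := by
  rw [S.setIntegral_step n (S.avg μ F n) v, avg]
  rcases eq_or_ne ((μ.prod μ).real (S.atom n v)) 0 with h | h
  · rw [h, zero_smul]
    have h0 : (μ.prod μ) (S.atom n v) = 0 := by
      rw [measureReal_def, ENNReal.toReal_eq_zero_iff] at h
      exact h.resolve_right (measure_ne_top _ _)
    rw [Measure.restrict_eq_zero.2 h0, integral_zero_measure]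
  · rw [smul_smul, mul_inv_cancel₀ h, one_smul]

/-- Levy's upward theorem for the averages, real-valued case. -/
theorem tendsto_avg_real {F : Ω × Ω → ℝ} (hF : Integrable F (μ.prod μ)) :
    ∀ᵐ p ∂(μ.prod μ), Tendsto (fun n => S.avg μ F n (S.D n p)) atTop (𝓝 (F p)) := by
  have h1 : ∀ n, (fun p => S.avg μ F n (S.D n p)) =ᵐ[μ.prod μ] (μ.prod μ)[F | S.filt n] := by
    intro n
    refine ae_eq_condExp_of_forall_setIntegral_eq (S.filt.le n) hF
      (fun s _ _ => (S.integrable_step n _).integrableOn) (fun s hs _ => ?_)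
      (S.stronglyMeasurable_step n _).aestronglyMeasurable
    exact S.setIntegral_congr_of_atom (S.integrable_step n _) hF
      (fun v => S.setIntegral_avg F n v) hs
  have h2 := MeasureTheory.tendsto_ae_condExp (μ := μ.prod μ) (ℱ := S.filt) F
  have h3 : (μ.prod μ)[F | ⨆ n, S.filt n] =ᵐ[μ.prod μ] F := by
    rw [S.iSup_filt]
    exact condExp_of_aestronglyMeasurable' le_rfl hF.aestronglyMeasurable hF
  filter_upwards [ae_all_iff.2 h1, h2, h3] with p hp1 hp2 hp3
  rw [← hp3]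
  refine hp2.congr fun n => ?_
  exact (hp1 n).symm

/-- Doob's convergence theorem, real-valued case. -/
theorem exists_limit_real {H : ℕ → ℕ × ℕ → ℝ} {R : ℝ≥0}
    (hH : ∀ n v, ∫ p in S.atom n v, H n (S.D n p) ∂(μ.prod μ)
      = ∫ p in S.atom n v, H (n + 1) (S.D (n + 1) p) ∂(μ.prod μ))
    (hR : ∀ n, eLpNorm (fun p => H n (S.D n p)) 1 (μ.prod μ) ≤ R) :
    ∃ F : Ω × Ω → ℝ, StronglyMeasurable F ∧
      ∀ᵐ p ∂(μ.prod μ), Tendsto (fun n => H n (S.D n p)) atTop (𝓝 (F p)) := by
  have hM : Martingale (fun n p => H n (S.D n p)) S.filt (μ.prod μ) := by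
    refine martingale_of_setIntegral_eq_succ (fun n => S.stronglyMeasurable_step n _)
      (fun n => S.integrable_step n _) fun n s hs => ?_
    exact S.setIntegral_congr_of_atom (S.integrable_step n _) (S.integrable_step (n + 1) _)
      (hH n) hs
  refine ⟨S.filt.limitProcess (fun n p => H n (S.D n p)) (μ.prod μ), ?_,
    hM.submartingale.ae_tendsto_limitProcess hR⟩
  exact Filtration.stronglyMeasurable_limit_process'

variable {𝕜 : Type*} [RCLike 𝕜]

theorem tendsto_avg {F : Ω × Ω → 𝕜} (hF : Integrable F (μ.prod μ)) :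
    ∀ᵐ p ∂(μ.prod μ), Tendsto (fun n => S.avg μ F n (S.D n p)) atTop (𝓝 (F p)) := by
  have hre := S.tendsto_avg_real hF.re
  have him := S.tendsto_avg_real hF.im
  filter_upwards [hre, him] with p h1 h2
  have e1 : ∀ n v, RCLike.re (S.avg μ F n v) = S.avg μ (fun p => RCLike.re (F p)) n v := by
    intro n v
    rw [avg, avg, RCLike.smul_re, smul_eq_mul, integral_re hF.integrableOn]
  have e2 : ∀ n v, RCLike.im (S.avg μ F n v) = S.avg μ (fun p => RCLike.im (F p)) n v := by
    intro n v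
    rw [avg, avg, RCLike.smul_im, smul_eq_mul, integral_im hF.integrableOn]
  have h3 := ((RCLike.continuous_ofReal (K := 𝕜)).tendsto _).comp h1
  have h4 := (((RCLike.continuous_ofReal (K := 𝕜)).tendsto _).comp h2).mul_const RCLike.I
  have h5 := h3.add h4
  rw [RCLike.re_add_im] at h5
  refine h5.congr fun n => ?_
  simp only [Function.comp_apply]
  rw [← e1, ← e2, RCLike.re_add_im]

theorem exists_limit {H : ℕ → ℕ × ℕ → 𝕜} {R : ℝ≥0}
    (hH : ∀ n v, ∫ p in S.atom n v, H n (S.D n p) ∂(μ.prod μ)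
      = ∫ p in S.atom n v, H (n + 1) (S.D (n + 1) p) ∂(μ.prod μ))
    (hR : ∀ n, eLpNorm (fun p => H n (S.D n p)) 1 (μ.prod μ) ≤ R) :
    ∃ F : Ω × Ω → 𝕜, StronglyMeasurable F ∧
      ∀ᵐ p ∂(μ.prod μ), Tendsto (fun n => H n (S.D n p)) atTop (𝓝 (F p)) := by
  obtain ⟨F1, hF1, h1⟩ := S.exists_limit_real (μ := μ) (H := fun n v => RCLike.re (H n v)) (R := R)
    (fun n v => by
      have := congrArg RCLike.re (hH n v)
      rwa [← integral_re (S.integrable_step n (H n)).restrict,
        ← integral_re (S.integrable_step (n + 1) (H (n + 1))).restrict] at this)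
    (fun n => (eLpNorm_mono fun p => by
      rw [Real.norm_eq_abs]; exact RCLike.abs_re_le_norm _).trans (hR n))
  obtain ⟨F2, hF2, h2⟩ := S.exists_limit_real (μ := μ) (H := fun n v => RCLike.im (H n v)) (R := R)
    (fun n v => by
      have := congrArg RCLike.im (hH n v)
      rwa [← integral_im (S.integrable_step n (H n)).restrict,
        ← integral_im (S.integrable_step (n + 1) (H (n + 1))).restrict] at this)
    (fun n => (eLpNorm_mono fun p => by
      rw [Real.norm_eq_abs]; exact RCLike.abs_im_le_norm _).trans (hR n))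
  refine ⟨fun p => (F1 p : 𝕜) + (F2 p : 𝕜) * RCLike.I, ?_, ?_⟩
  · exact (RCLike.continuous_ofReal.comp_stronglyMeasurable hF1).add
      ((RCLike.continuous_ofReal.comp_stronglyMeasurable hF2).mul_const _)
  · filter_upwards [h1, h2] with p h1 h2
    have h3 := ((RCLike.continuous_ofReal (K := 𝕜)).tendsto _).comp h1
    have h4 := (((RCLike.continuous_ofReal (K := 𝕜)).tendsto _).comp h2).mul_const RCLike.I
    refine (h3.add h4).congr fun n => ?_
    simp only [Function.comp_apply]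
    rw [RCLike.re_add_im]

end Scale

end Pool.Agent.Work.MP_cd69b0_an
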