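import Mathlib
import Pool.Agent.Work.MP_cd69b0_an.Scale

open scoped ENNReal Topology NNReal
open MeasureTheory Filter TopologicalSpace

set_option linter.unusedSectionVars false

namespace Pool.Agent.Work.MP_cd69b0_an

variable {𝕜 : Type*} [RCLike 𝕜] {r : ℝ≥0∞} [hr1 : Fact (1 ≤ r)]
variable {Ω : Type*} [mΩ : MeasurableSpace Ω] (μ : Measure Ω) [IsProbabilityMeasure μ]

/-- The space `L_∞(L_r)`. -/
abbrev Xsp (𝕜 : Type*) [RCLike 𝕜] (r : ℝ≥0∞) [Fact (1 ≤ r)] {Ω : Type*} [MeasurableSpace Ω]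
    (μ : Measure Ω) : Type _ :=
  Lp (Lp 𝕜 r μ) ∞ μ

theorem Xsp.ae_norm_le {μ : Measure Ω} (f : Xsp 𝕜 r μ) : ∀ᵐ t ∂μ, ‖f t‖ ≤ ‖f‖ := by
  have h := ae_le_eLpNormEssSup (f := (f : Ω → Lp 𝕜 r μ)) (μ := μ)
  filter_upwards [h] with t ht
  rw [Lp.norm_def f, eLpNorm_exponent_top]
  rw [← ofReal_norm, ENNReal.ofReal_le_iff_le_toReal] at ht
  · exact ht
  · rw [← eLpNorm_exponent_top]
    exact Lp.eLpNorm_ne_top f

theorem Xsp.integrable (f : Xsp 𝕜 r μ) : Integrable f μ := integrable_Lp μ le_top f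

/-- Average over a set, `L_∞(L_r) → L_r`. -/
noncomputable def avgL (A : Set Ω) : Xsp 𝕜 r μ →L[𝕜] Lp 𝕜 r μ :=
  LinearMap.mkContinuous
    { toFun := fun f => ((μ.real A)⁻¹ : ℝ) • ∫ t in A, f t ∂μ
      map_add' := fun f g => by
        rw [← smul_add, ← integral_add (Xsp.integrable μ f).restrict (Xsp.integrable μ g).restrict]
        congr 1
        refine integral_congr_ae (ae_restrict_of_ae ?_)
        filter_upwards [Lp.coeFn_add f g] with t ht
        exact ht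
      map_smul' := fun c f => by
        have h : ∫ t in A, (c • f : Xsp 𝕜 r μ) t ∂μ = c • ∫ t in A, f t ∂μ := by
          rw [← integral_smul]
          refine integral_congr_ae (ae_restrict_of_ae ?_)
          filter_upwards [Lp.coeFn_smul c f] with t ht
          exact ht
        rw [RingHom.id_apply, h, smul_comm] }
    1 (fun f => by
      show ‖((μ.real A)⁻¹ : ℝ) • ∫ t in A, f t ∂μ‖ ≤ 1 * ‖f‖
      rw [norm_smul, norm_inv, Real.norm_of_nonneg measureReal_nonneg, one_mul]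
      have h1 : ‖∫ t in A, f t ∂μ‖ ≤ ‖f‖ * μ.real A :=
        norm_setIntegral_le_of_norm_le_const_ae' (measure_lt_top _ _)
          ((Xsp.ae_norm_le f).mono fun t ht _ => ht)
      rcases eq_or_ne (μ.real A) 0 with h | h
      · rw [h]; simp
      · have hpos : 0 < μ.real A := lt_of_le_of_ne measureReal_nonneg h.symm
        rw [inv_mul_le_iff₀ hpos]
        linarith)

theorem avgL_apply (A : Set Ω) (f : Xsp 𝕜 r μ) :
    avgL μ A f = ((μ.real A)⁻¹ : ℝ) • ∫ t in A, f t ∂μ := rfl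

theorem norm_avgL_le (A : Set Ω) : ‖(avgL μ A : Xsp 𝕜 r μ →L[𝕜] Lp 𝕜 r μ)‖ ≤ 1 :=
  LinearMap.mkContinuous_norm_le _ zero_le_one _

/-- Integration over a set as a functional on `L_r`. -/
noncomputable def setIntL (A : Set Ω) : Lp 𝕜 r μ →L[𝕜] 𝕜 :=
  LinearMap.mkContinuous
    { toFun := fun u => ∫ s in A, u s ∂μ
      map_add' := fun u v => by
        rw [← integral_add (integrable_Lp μ hr1.out u).restrict
          (integrable_Lp μ hr1.out v).restrict]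
        refine integral_congr_ae (ae_restrict_of_ae ?_)
        filter_upwards [Lp.coeFn_add u v] with s hs
        exact hs
      map_smul' := fun c u => by
        rw [RingHom.id_apply, ← integral_smul]
        refine integral_congr_ae (ae_restrict_of_ae ?_)
        filter_upwards [Lp.coeFn_smul c u] with s hs
        exact hs }
    1 (fun u => by
      rw [one_mul]
      show ‖∫ s in A, u s ∂μ‖ ≤ ‖u‖
      have h : ‖∫ s in A, u s ∂μ‖ₑ ≤ ‖u‖ₑ :=
        (enorm_integral_le_lintegral_enorm _).trans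
          ((setLIntegral_le_lintegral _ _).trans (lintegral_enorm_le_of_Lp u))
      rwa [← ofReal_norm, ← ofReal_norm, ENNReal.ofReal_le_ofReal_iff (norm_nonneg _)] at h)

theorem setIntL_apply (A : Set Ω) (u : Lp 𝕜 r μ) : setIntL μ A u = ∫ s in A, u s ∂μ := rfl

variable (S : Scale Ω)

/-- The operators `J_{n,a}`. -/
noncomputable def JL (hr : r ≠ ∞) (n a : ℕ) : Xsp 𝕜 r μ →L[𝕜] El 𝕜 r (S.N n) :=
  (piL μ hr (S.meas n) (S.N n)).comp (avgL μ (S.d n ⁻¹' {a}))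

theorem norm_JL_le (hr : r ≠ ∞) (n a : ℕ) :
    ‖(JL μ S hr n a : Xsp 𝕜 r μ →L[𝕜] El 𝕜 r (S.N n))‖ ≤ 1 :=
  (ContinuousLinearMap.opNorm_comp_le _ _).trans
    (mul_le_one₀ (norm_piL_le _ _ _ _) (norm_nonneg _) (norm_avgL_le _ _))

variable {μ}

theorem measureReal_atom (n : ℕ) (v : ℕ × ℕ) :
    (μ.prod μ).real (S.atom n v) = atomR μ (S.d n) v.1 * atomR μ (S.d n) v.2 := by
  rw [S.atom_eq_prod, measureReal_prod_prod]
  rfl

theorem setIntegral_atom {F : Ω × Ω → 𝕜} {f : Xsp 𝕜 r μ} (hF : Integrable F (μ.prod μ))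
    (h : Rep μ F f) (n : ℕ) (v : ℕ × ℕ) :
    ∫ p in S.atom n v, F p ∂(μ.prod μ)
      = ∫ t in S.d n ⁻¹' {v.1}, ∫ s in S.d n ⁻¹' {v.2}, f t s ∂μ ∂μ := by
  rw [S.atom_eq_prod, setIntegral_prod _ hF.integrableOn]
  refine integral_congr_ae (ae_restrict_of_ae ?_)
  filter_upwards [h] with t ht
  exact integral_congr_ae (ae_restrict_of_ae ht)

theorem JL_apply (hr : r ≠ ∞) {F : Ω × Ω → 𝕜} {f : Xsp 𝕜 r μ} (hF : Integrable F (μ.prod μ))
    (h : Rep μ F f) (n a : ℕ) (b : Fin (S.N n)) :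
    JL μ S hr n a f b
      = ((atomR μ (S.d n) b ^ (1 / r.toReal) : ℝ) : 𝕜) * S.avg μ F n (a, b) := by
  rw [JL, ContinuousLinearMap.comp_apply, piL_apply, Scale.avg, setIntegral_atom S hF h,
    measureReal_atom, avgL_apply, ← setIntL_apply μ]
  have h1 : setIntL μ (S.d n ⁻¹' {(b : ℕ)})
      (((μ.real (S.d n ⁻¹' {a}))⁻¹ : ℝ) • ∫ t in S.d n ⁻¹' {a}, f t ∂μ)
      = ((μ.real (S.d n ⁻¹' {a}))⁻¹ : ℝ) •
        ∫ t in S.d n ⁻¹' {a}, ∫ s in S.d n ⁻¹' {(b : ℕ)}, f t s ∂μ ∂μ := by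
    rw [ContinuousLinearMap.map_smul_of_tower]
    congr 1
    exact (ContinuousLinearMap.integral_comp_comm (setIntL μ (S.d n ⁻¹' {(b : ℕ)}))
      (Xsp.integrable μ f).restrict).symm
  rw [h1]
  rcases eq_or_ne (atomR μ (S.d n) b) 0 with h0 | h0
  · have h2 : μ (S.d n ⁻¹' {(b : ℕ)}) = 0 := by
      rw [atomR, measureReal_def, ENNReal.toReal_eq_zero_iff] at h0
      exact h0.resolve_right (measure_ne_top _ _)
    simp [Measure.restrict_eq_zero.2 h2]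
  · have hpos : 0 < atomR μ (S.d n) b := lt_of_le_of_ne (atomR_nonneg _ _ _) h0.symm
    simp only [RCLike.real_smul_eq_coe_mul]
    rw [Real.rpow_sub_one h0, mul_inv]
    simp only [atomR]
    push_cast
    ring

/-- The step functions on the square attached to `g`. -/
noncomputable def HH (μ : Measure Ω) (g : ∀ p : ℕ × ℕ, El 𝕜 r (S.N p.1)) (n : ℕ)
    (v : ℕ × ℕ) : 𝕜 :=
  stepVal μ (S.d n) (S.N n) (g (n, v.1)) v.2

/-- The `L_r`-valued step functions attached to `g`. -/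
noncomputable def stepX (μ : Measure Ω) [IsProbabilityMeasure μ] (hr : r ≠ ∞)
    (g : ∀ p : ℕ × ℕ, El 𝕜 r (S.N p.1)) (n : ℕ) (t : Ω) : Lp 𝕜 r μ :=
  iotaL μ hr (S.meas n) (S.N n) (g (n, S.d n t))

theorem rep_stepX (hr : r ≠ ∞) (g : ∀ p : ℕ × ℕ, El 𝕜 r (S.N p.1)) (n : ℕ) :
    Rep μ (fun p => HH S μ g n (S.D n p)) (stepX S μ hr g n) :=
  Eventually.of_forall fun t => (coeFn_iotaL μ hr (S.meas n) (S.N n) (g (n, S.d n t))).symm

theorem norm_stepX_le (hr : r ≠ ∞) (g : ∀ p : ℕ × ℕ, El 𝕜 r (S.N p.1)) (n : ℕ) (t : Ω) :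
    ‖stepX S μ hr g n t‖ ≤ ‖g (n, S.d n t)‖ := by
  have h := (iotaL (𝕜 := 𝕜) μ hr (S.meas n) (S.N n)).le_of_opNorm_le
    (norm_iotaL_le μ hr (S.meas n) (S.N n)) (g (n, S.d n t))
  rw [one_mul] at h
  exact h

theorem norm_stepX_le_sum (hr : r ≠ ∞) (g : ∀ p : ℕ × ℕ, El 𝕜 r (S.N p.1)) (n : ℕ) (t : Ω) :
    ‖stepX S μ hr g n t‖ ≤ ∑ a ∈ Finset.range (S.N n), ‖g (n, a)‖ := by
  refine (norm_stepX_le S hr g n t).trans ?_
  exact Finset.single_le_sum (f := fun a => ‖g (n, a)‖) (fun _ _ => norm_nonneg _)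
    (Finset.mem_range.2 (S.lt n t))

theorem aestronglyMeasurable_stepX (hr : r ≠ ∞) (g : ∀ p : ℕ × ℕ, El 𝕜 r (S.N p.1)) (n : ℕ) :
    AEStronglyMeasurable (stepX S μ hr g n) μ := by
  have h : StronglyMeasurable fun a : ℕ => iotaL μ hr (S.meas n) (S.N n) (g (n, a)) :=
    StronglyMeasurable.of_discrete
  exact (h.comp_measurable (S.meas n)).aestronglyMeasurable

theorem memLp_stepX (hr : r ≠ ∞) (g : ∀ p : ℕ × ℕ, El 𝕜 r (S.N p.1)) (n : ℕ) :
    MemLp (stepX S μ hr g n) ∞ μ :=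
  memLp_top_of_bound (aestronglyMeasurable_stepX S hr g n) _
    (Eventually.of_forall (norm_stepX_le_sum S hr g n))

/-- The step function as an element of `L_∞(L_r)`. -/
noncomputable def SX (μ : Measure Ω) [IsProbabilityMeasure μ] (hr : r ≠ ∞)
    (g : ∀ p : ℕ × ℕ, El 𝕜 r (S.N p.1)) (n : ℕ) : Xsp 𝕜 r μ :=
  (memLp_stepX S hr g n).toLp _

theorem rep_SX (hr : r ≠ ∞) (g : ∀ p : ℕ × ℕ, El 𝕜 r (S.N p.1)) (n : ℕ) :
    Rep μ (fun p => HH S μ g n (S.D n p)) (SX S μ hr g n) :=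
  (rep_stepX S hr g n).congr_right (MemLp.coeFn_toLp (memLp_stepX S hr g n)).symm

theorem norm_SX_le {C : ℝ} (hC0 : 0 ≤ C) (hr : r ≠ ∞) (g : ∀ p : ℕ × ℕ, El 𝕜 r (S.N p.1))
    (n : ℕ) (hC : ∀ a, ‖g (n, a)‖ ≤ C) : ‖SX S μ hr g n‖ ≤ C := by
  rw [SX, Lp.norm_toLp]
  refine ENNReal.toReal_le_of_le_ofReal hC0 ?_
  rw [eLpNorm_exponent_top]
  exact eLpNormEssSup_le_of_ae_bound
    (Eventually.of_forall fun t => (norm_stepX_le S hr g n t).trans (hC _))

theorem norm_SX_sub_le (hr : r ≠ ∞) (g g' : ∀ p : ℕ × ℕ, El 𝕜 r (S.N p.1)) (n : ℕ) :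
    ‖SX S μ hr g n - SX S μ hr g' n‖ ≤ ∑ a ∈ Finset.range (S.N n), ‖g (n, a) - g' (n, a)‖ := by
  rw [SX, SX, ← MemLp.toLp_sub, Lp.norm_toLp]
  refine ENNReal.toReal_le_of_le_ofReal (Finset.sum_nonneg fun _ _ => norm_nonneg _) ?_
  rw [eLpNorm_exponent_top]
  refine eLpNormEssSup_le_of_ae_bound (Eventually.of_forall fun t => ?_)
  have h : (stepX S μ hr g n - stepX S μ hr g' n) t = stepX S μ hr (g - g') n t := by
    simp only [Pi.sub_apply, stepX, map_sub]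
  rw [h]
  exact norm_stepX_le_sum S hr (g - g') n t

/-- `stepVal` of `J f` gives back the averages. -/
theorem HH_JL (hr : r ≠ ∞) {F : Ω × Ω → 𝕜} {f : Xsp 𝕜 r μ} (hF : Integrable F (μ.prod μ))
    (h : Rep μ F f) (n : ℕ) (v : ℕ × ℕ) :
    HH S μ (fun p : ℕ × ℕ => JL μ S hr p.1 p.2 f) n v = S.avg μ F n v := by
  have hp := toReal_pos_of hr
  simp only [HH, stepVal]
  split_ifs with hb
  · rw [JL_apply S hr hF h]
    rcases eq_or_ne (atomR μ (S.d n) v.2) 0 with h0 | h0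
    · have h1 : S.avg μ F n v = 0 := by
        rw [Scale.avg, measureReal_atom, h0]; simp
      have h2 : (-(1 / r.toReal)) ≠ 0 := by
        have : 0 < 1 / r.toReal := by positivity
        linarith
      rw [h1, h0, Real.zero_rpow h2]
      simp
    · have hpos : 0 < atomR μ (S.d n) v.2 := lt_of_le_of_ne (atomR_nonneg _ _ _) h0.symm
      rw [← mul_assoc, ← RCLike.ofReal_mul, ← Real.rpow_add hpos]
      simp
  · have h1 : S.atom n v = ∅ := by
      refine S.atom_empty n v fun hv => hb ?_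
      rw [Finset.mem_product, Finset.mem_range, Finset.mem_range] at hv
      exact hv.2
    rw [Scale.avg, h1]
    simp

/-- Tower property. -/
theorem JL_SX_JL (hr : r ≠ ∞) (f : Xsp 𝕜 r μ) {n m : ℕ} (hnm : n ≤ m) (a : ℕ) :
    JL μ S hr n a (SX S μ hr (fun p : ℕ × ℕ => JL μ S hr p.1 p.2 f) m) = JL μ S hr n a f := by
  obtain ⟨F, hF, h⟩ := exists_rep (Xsp.integrable μ f)
  have hG := rep_SX (μ := μ) S hr (fun p : ℕ × ℕ => JL μ S hr p.1 p.2 f) m
  have hGi : Integrable (fun p => HH S μ (fun p : ℕ × ℕ => JL μ S hr p.1 p.2 f) m (S.D m p))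
      (μ.prod μ) := S.integrable_step m _
  ext b
  rw [JL_apply S hr hGi hG, JL_apply S hr hF h]
  congr 1
  rw [Scale.avg, Scale.avg]
  congr 1
  refine S.setIntegral_congr_of_atom (n := m) hGi hF (fun v => ?_) ?_
  · simp_rw [HH_JL S hr hF h]
    exact S.setIntegral_avg F m v
  · exact S.filt.mono hnm _ ⟨{(a, (b : ℕ))}, trivial, rfl⟩

end Pool.Agent.Work.MP_cd69b0_an
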