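import Mathlib
import Pool.Agent.Work.MP_cd69b0_an.Ops

open scoped ENNReal Topology NNReal
open MeasureTheory Filter TopologicalSpace

set_option linter.unusedSectionVars false

namespace Pool.Agent.Work.MP_cd69b0_an

/-- Bounded sequences in a proper space converge along an ultrafilter. -/
theorem exists_tendsto_hyperfilter {E : Type*} [NormedAddCommGroup E] [ProperSpace E]
    {x : ℕ → E} {C : ℝ} (h : ∀ k, ‖x k‖ ≤ C) :
    ∃ y, ‖y‖ ≤ C ∧ Tendsto x (hyperfilter ℕ) (𝓝 y) := by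
  have h1 : ((hyperfilter ℕ).map x : Filter E) ≤ 𝓟 (Metric.closedBall 0 C) := by
    rw [le_principal_iff]
    refine Filter.mem_map.2 (Filter.univ_mem' fun k => ?_)
    simpa using h k
  obtain ⟨y, hy, hy'⟩ := (isCompact_closedBall (0 : E) C).ultrafilter_le_nhds _ h1
  exact ⟨y, by simpa using hy, hy'⟩

variable {𝕜 : Type*} [RCLike 𝕜] {r : ℝ≥0∞} [hr1 : Fact (1 ≤ r)]
variable {Ω : Type*} [mΩ : MeasurableSpace Ω] {μ : Measure Ω} [IsProbabilityMeasure μ]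
variable (S : Scale Ω)

/-- The sequence space receiving `L_∞(L_r)`. -/
abbrev Vsp (𝕜 : Type*) [RCLike 𝕜] (r : ℝ≥0∞) [Fact (1 ≤ r)] (S : Scale Ω) : Type _ :=
  Bsp 𝕜 r (fun p : ℕ × ℕ => S.N p.1)

theorem Vsp.norm_le (g : Vsp 𝕜 r S) (n a : ℕ) : ‖g (n, a)‖ ≤ ‖g‖ :=
  lp.norm_apply_le_norm ENNReal.top_ne_zero g (n, a)

/-- The operator `J`. -/
noncomputable def JJ (μ : Measure Ω) [IsProbabilityMeasure μ] (hr : r ≠ ∞) :
    Xsp 𝕜 r μ →L[𝕜] Vsp 𝕜 r S :=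
  lpLift (fun p : ℕ × ℕ => JL μ S hr p.1 p.2) 1 fun p => norm_JL_le μ S hr p.1 p.2

theorem exists_MM (hr : r ≠ ∞) (g : Vsp 𝕜 r S) (p : ℕ × ℕ) :
    ∃ y : El 𝕜 r (S.N p.1), ‖y‖ ≤ ‖g‖ ∧
      Tendsto (fun k => JL μ S hr p.1 p.2 (SX S μ hr g k)) (hyperfilter ℕ) (𝓝 y) := by
  refine exists_tendsto_hyperfilter fun k => ?_
  have h := (JL (𝕜 := 𝕜) μ S hr p.1 p.2).le_of_opNorm_le (norm_JL_le μ S hr p.1 p.2)
    (SX S μ hr g k)
  rw [one_mul] at h
  exact h.trans (norm_SX_le S (norm_nonneg _) hr g k (Vsp.norm_le S g k))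

/-- The ultrafilter limit of the averages. -/
noncomputable def MM (μ : Measure Ω) [IsProbabilityMeasure μ] (hr : r ≠ ∞) (g : Vsp 𝕜 r S)
    (p : ℕ × ℕ) : El 𝕜 r (S.N p.1) :=
  (exists_MM (μ := μ) S hr g p).choose

theorem norm_MM_le (hr : r ≠ ∞) (g : Vsp 𝕜 r S) (p : ℕ × ℕ) : ‖MM S μ hr g p‖ ≤ ‖g‖ :=
  (exists_MM (μ := μ) S hr g p).choose_spec.1

theorem tendsto_MM (hr : r ≠ ∞) (g : Vsp 𝕜 r S) (p : ℕ × ℕ) :
    Tendsto (fun k => JL μ S hr p.1 p.2 (SX S μ hr g k)) (hyperfilter ℕ) (𝓝 (MM S μ hr g p)) :=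
  (exists_MM (μ := μ) S hr g p).choose_spec.2

theorem MM_unique (hr : r ≠ ∞) (g : Vsp 𝕜 r S) (p : ℕ × ℕ) {y : El 𝕜 r (S.N p.1)}
    (h : Tendsto (fun k => JL μ S hr p.1 p.2 (SX S μ hr g k)) (hyperfilter ℕ) (𝓝 y)) :
    MM S μ hr g p = y :=
  tendsto_nhds_unique (tendsto_MM S hr g p) h

theorem SX_add (hr : r ≠ ∞) (g g' : ∀ p : ℕ × ℕ, El 𝕜 r (S.N p.1)) (n : ℕ) :
    SX S μ hr (g + g') n = SX S μ hr g n + SX S μ hr g' n := by
  rw [SX, SX, SX, ← MemLp.toLp_add]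
  refine MemLp.toLp_congr _ _ (Eventually.of_forall fun t => ?_)
  simp only [Pi.add_apply, stepX, map_add]

theorem SX_smul (hr : r ≠ ∞) (c : 𝕜) (g : ∀ p : ℕ × ℕ, El 𝕜 r (S.N p.1)) (n : ℕ) :
    SX S μ hr (c • g) n = c • SX S μ hr g n := by
  rw [SX, SX, ← MemLp.toLp_const_smul]
  refine MemLp.toLp_congr _ _ (Eventually.of_forall fun t => ?_)
  simp only [Pi.smul_apply, stepX, map_smul]

theorem MM_add (hr : r ≠ ∞) (g g' : Vsp 𝕜 r S) :
    MM S μ hr (g + g') = MM S μ hr g + MM S μ hr g' := by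
  ext1 p
  refine MM_unique S hr _ p ?_
  refine ((tendsto_MM S hr g p).add (tendsto_MM S hr g' p)).congr fun k => ?_
  rw [← map_add, ← SX_add]
  rfl

theorem MM_smul (hr : r ≠ ∞) (c : 𝕜) (g : Vsp 𝕜 r S) :
    MM S μ hr (c • g) = c • MM S μ hr g := by
  ext1 p
  refine MM_unique S hr _ p ?_
  refine ((tendsto_MM S hr g p).const_smul c).congr fun k => ?_
  rw [← map_smul, ← SX_smul]
  rfl

theorem MM_JJ (hr : r ≠ ∞) (f : Xsp 𝕜 r μ) (p : ℕ × ℕ) :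
    MM S μ hr (JJ S μ hr f) p = JL μ S hr p.1 p.2 f := by
  refine MM_unique S hr _ p ?_
  have h : ∀ᶠ k in (hyperfilter ℕ : Filter ℕ),
      JL μ S hr p.1 p.2 f = JL μ S hr p.1 p.2 (SX S μ hr (JJ S μ hr f) k) := by
    refine Filter.Eventually.filter_mono Nat.hyperfilter_le_atTop ?_
    filter_upwards [eventually_ge_atTop p.1] with k hk
    exact (JL_SX_JL S hr f hk p.2).symm
  exact (tendsto_congr' h).1 tendsto_const_nhds

/-- Compatibility of the limits. -/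
theorem JL_SX_MM (hr : r ≠ ∞) (g : Vsp 𝕜 r S) {n m : ℕ} (hnm : n ≤ m) (a : ℕ) :
    JL μ S hr n a (SX S μ hr (MM S μ hr g) m) = MM S μ hr g (n, a) := by
  -- `SX (J (SX g k)) m → SX (MM g) m` along the ultrafilter
  have h1 : Tendsto (fun k => SX S μ hr (fun p : ℕ × ℕ => JL μ S hr p.1 p.2 (SX S μ hr g k)) m)
      (hyperfilter ℕ) (𝓝 (SX S μ hr (MM S μ hr g) m)) := by
    rw [tendsto_iff_norm_sub_tendsto_zero]
    have h2 : Tendsto (fun k => ∑ a ∈ Finset.range (S.N m),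
        ‖JL μ S hr m a (SX S μ hr g k) - MM S μ hr g (m, a)‖) (hyperfilter ℕ) (𝓝 0) := by
      rw [← Finset.sum_const_zero (s := Finset.range (S.N m))]
      refine tendsto_finsetSum _ fun a _ => ?_
      exact tendsto_iff_norm_sub_tendsto_zero.1 (tendsto_MM S hr g (m, a))
    exact squeeze_zero (fun _ => norm_nonneg _) (fun k => norm_SX_sub_le S hr _ _ m) h2
  have h3 := ((JL μ S hr n a).continuous.tendsto _).comp h1
  refine tendsto_nhds_unique h3 ?_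
  refine (tendsto_MM S hr g (n, a)).congr fun k => ?_
  exact (JL_SX_JL S hr (SX S μ hr g k) hnm a).symm

theorem setIntegral_HH_MM (hr : r ≠ ∞) (g : Vsp 𝕜 r S) (n : ℕ) (v : ℕ × ℕ) :
    ∫ p in S.atom n v, HH S μ (MM S μ hr g) n (S.D n p) ∂(μ.prod μ)
      = ∫ p in S.atom n v, HH S μ (MM S μ hr g) (n + 1) (S.D (n + 1) p) ∂(μ.prod μ) := by
  rcases eq_or_ne ((μ.prod μ).real (S.atom n v)) 0 with h | h
  · have h0 : (μ.prod μ) (S.atom n v) = 0 := by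
      rw [measureReal_def, ENNReal.toReal_eq_zero_iff] at h
      exact h.resolve_right (measure_ne_top _ _)
    rw [Measure.restrict_eq_zero.2 h0, integral_zero_measure, integral_zero_measure]
  · have hb : v.2 < S.N n := by
      by_contra hb
      refine h ?_
      rw [S.atom_empty n v fun hv => hb ?_, measureReal_empty]
      rw [Finset.mem_product, Finset.mem_range, Finset.mem_range] at hv
      exact hv.2
    have hi : ∀ m, Integrable (fun p => HH S μ (MM S μ hr g) m (S.D m p)) (μ.prod μ) :=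
      fun m => S.integrable_step m _
    have e1 := JL_apply S hr (hi n) (rep_SX S hr (MM S μ hr g) n) n v.1 ⟨v.2, hb⟩
    have e2 := JL_apply S hr (hi (n + 1)) (rep_SX S hr (MM S μ hr g) (n + 1)) n v.1 ⟨v.2, hb⟩
    rw [JL_SX_MM S hr g le_rfl] at e1
    rw [JL_SX_MM S hr g (Nat.le_succ n), e1] at e2
    rw [measureReal_atom] at h
    have h0 : atomR μ (S.d n) v.2 ≠ 0 := right_ne_zero_of_mul h
    have hpos : 0 < atomR μ (S.d n) v.2 := lt_of_le_of_ne (atomR_nonneg _ _ _) h0.symm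
    have hc : ((atomR μ (S.d n) v.2 ^ (1 / r.toReal) : ℝ) : 𝕜) ≠ 0 := by
      rw [Ne, RCLike.ofReal_eq_zero]
      positivity
    have e3 := mul_left_cancel₀ hc e2
    rw [Scale.avg, Scale.avg, measureReal_atom] at e3
    exact smul_right_injective _ (inv_ne_zero h) e3

theorem eLpNorm_HH_le (hr : r ≠ ∞) {C : ℝ≥0∞} (g : ∀ p : ℕ × ℕ, El 𝕜 r (S.N p.1)) (n : ℕ)
    (hg : ∀ a, ‖g (n, a)‖ₑ ≤ C) (t : Ω) :
    eLpNorm (fun s => HH S μ g n (S.D n (t, s))) r μ ≤ C :=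
  (eLpNorm_step_le μ hr (S.meas n) (S.N n) (g (n, S.d n t))).trans (hg _)

theorem eLpNorm_one_HH_le (hr : r ≠ ∞) {C : ℝ≥0∞} (g : ∀ p : ℕ × ℕ, El 𝕜 r (S.N p.1)) (n : ℕ)
    (hg : ∀ a, ‖g (n, a)‖ₑ ≤ C) :
    eLpNorm (fun p => HH S μ g n (S.D n p)) 1 (μ.prod μ) ≤ C := by
  have hm : AEStronglyMeasurable (fun p => HH S μ g n (S.D n p)) (μ.prod μ) :=
    (S.integrable_step n _).aestronglyMeasurable
  rw [eLpNorm_one_eq_lintegral_enorm, lintegral_prod _ hm.enorm]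
  calc ∫⁻ t, ∫⁻ s, ‖HH S μ g n (S.D n (t, s))‖ₑ ∂μ ∂μ ≤ ∫⁻ _, C ∂μ := by
        refine lintegral_mono fun t => ?_
        have hm' : AEStronglyMeasurable (fun s => HH S μ g n (S.D n (t, s))) μ :=
          (memLp_step μ hr (S.meas n) (S.N n) (g (n, S.d n t))).aestronglyMeasurable
        rw [← eLpNorm_one_eq_lintegral_enorm]
        exact (eLpNorm_le_eLpNorm_of_exponent_le hr1.out hm').trans
          (eLpNorm_HH_le S hr g n hg t)
    _ = C := by simp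

/-- `f` is the limit of the martingale attached to `g`. -/
def LimRel (μ : Measure Ω) [IsProbabilityMeasure μ] (hr : r ≠ ∞) (g : Vsp 𝕜 r S)
    (f : Xsp 𝕜 r μ) : Prop :=
  ∃ F : Ω × Ω → 𝕜, (∀ᵐ p ∂(μ.prod μ), Tendsto (fun n => HH S μ (MM S μ hr g) n (S.D n p)) atTop
    (𝓝 (F p))) ∧ Rep μ F f

theorem LimRel.unique {hr : r ≠ ∞} {g : Vsp 𝕜 r S} {f f' : Xsp 𝕜 r μ} (h : LimRel S μ hr g f)
    (h' : LimRel S μ hr g f') : f = f' := by
  obtain ⟨F, h1, h2⟩ := h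
  obtain ⟨F', h1', h2'⟩ := h'
  refine Lp.ext (h2.unique h2' ?_)
  filter_upwards [h1, h1'] with p hp hp'
  exact tendsto_nhds_unique hp hp'

theorem HH_add (g g' : ∀ p : ℕ × ℕ, El 𝕜 r (S.N p.1)) (n : ℕ) (v : ℕ × ℕ) :
    HH S μ (g + g') n v = HH S μ g n v + HH S μ g' n v := by
  simp only [HH, stepVal, Pi.add_apply, PiLp.add_apply]
  split_ifs <;> ring

theorem HH_smul (c : 𝕜) (g : ∀ p : ℕ × ℕ, El 𝕜 r (S.N p.1)) (n : ℕ) (v : ℕ × ℕ) :
    HH S μ (c • g) n v = c • HH S μ g n v := by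
  simp only [HH, stepVal, Pi.smul_apply, PiLp.smul_apply, smul_eq_mul]
  split_ifs <;> ring

theorem LimRel.add {hr : r ≠ ∞} {g g' : Vsp 𝕜 r S} {f f' : Xsp 𝕜 r μ} (h : LimRel S μ hr g f)
    (h' : LimRel S μ hr g' f') : LimRel S μ hr (g + g') (f + f') := by
  obtain ⟨F, h1, h2⟩ := h
  obtain ⟨F', h1', h2'⟩ := h'
  refine ⟨F + F', ?_, (h2.add h2').congr_right (Lp.coeFn_add f f').symm⟩
  filter_upwards [h1, h1'] with p hp hp'
  refine (hp.add hp').congr fun n => ?_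
  rw [MM_add, HH_add]

theorem LimRel.smul {hr : r ≠ ∞} (c : 𝕜) {g : Vsp 𝕜 r S} {f : Xsp 𝕜 r μ}
    (h : LimRel S μ hr g f) : LimRel S μ hr (c • g) (c • f) := by
  obtain ⟨F, h1, h2⟩ := h
  refine ⟨c • F, ?_, (h2.const_smul c).congr_right (Lp.coeFn_smul c f).symm⟩
  filter_upwards [h1] with p hp
  refine (hp.const_smul c).congr fun n => ?_
  rw [MM_smul, HH_smul]

theorem LimRel.JJ (hr : r ≠ ∞) (f : Xsp 𝕜 r μ) : LimRel S μ hr (JJ S μ hr f) f := by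
  obtain ⟨F, hF, h⟩ := exists_rep (Xsp.integrable μ f)
  refine ⟨F, ?_, h⟩
  filter_upwards [S.tendsto_avg hF] with p hp
  refine hp.congr fun n => ?_
  rw [← HH_JL S hr hF h]
  congr 1
  ext1 p
  exact (MM_JJ S hr f p).symm

theorem LimRel.exists [MeasurableSpace.CountablyGenerated Ω] (hr : r ≠ ∞) (g : Vsp 𝕜 r S) :
    ∃ f : Xsp 𝕜 r μ, LimRel S μ hr g f ∧ ‖f‖ ≤ ‖g‖ := by
  have hM : ∀ n a, ‖MM S μ hr g (n, a)‖ₑ ≤ (‖g‖₊ : ℝ≥0∞) := fun n a => by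
    have h1 := norm_MM_le (μ := μ) S hr g (n, a)
    rw [enorm_eq_nnnorm]
    exact_mod_cast h1
  obtain ⟨F, hFm, hF⟩ := S.exists_limit (μ := μ) (H := HH S μ (MM S μ hr g)) (R := ‖g‖₊)
    (setIntegral_HH_MM S hr g) (fun n => eLpNorm_one_HH_le S hr _ n (hM n))
  have hb : ∀ᵐ t ∂μ, eLpNorm (fun s => F (t, s)) r μ ≤ ENNReal.ofReal ‖g‖ := by
    filter_upwards [Measure.ae_ae_of_ae_prod hF] with t ht
    have h1 := Lp.eLpNorm_lim_le_liminf_eLpNorm (p := r) (μ := μ)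
      (f := fun n s => HH S μ (MM S μ hr g) n (S.D n (t, s)))
      (fun n => (memLp_step μ hr (S.meas n) (S.N n)
        (MM S μ hr g (n, S.d n t))).aestronglyMeasurable) (fun s => F (t, s)) ht
    refine h1.trans ?_
    have h2 : (ENNReal.ofReal ‖g‖) = (‖g‖₊ : ℝ≥0∞) := by
      rw [ofReal_norm, enorm_eq_nnnorm]
    rw [h2]
    refine liminf_le_of_le (by isBoundedDefault) fun b hb => ?_
    obtain ⟨n, hn⟩ := hb.exists
    exact hn.trans (eLpNorm_HH_le S hr _ n (hM n) t)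
  obtain ⟨f, hfm, hrep, hfb⟩ := exists_section hr hFm.aestronglyMeasurable hb (norm_nonneg _)
  have hfL : MemLp f ∞ μ := memLp_top_of_bound hfm _ hfb
  refine ⟨hfL.toLp f, ⟨F, hF, hrep.congr_right hfL.coeFn_toLp.symm⟩, ?_⟩
  rw [Lp.norm_toLp]
  refine ENNReal.toReal_le_of_le_ofReal (norm_nonneg _) ?_
  rw [eLpNorm_exponent_top]
  exact eLpNormEssSup_le_of_ae_bound hfb

/-- `L_∞(L_r)` is isomorphic to a complemented subspace of an `ℓ_∞`-sum of finite-dimensional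
`ℓ_r` spaces. -/
theorem compl_Vsp [MeasurableSpace.CountablyGenerated Ω] (hr : r ≠ ∞) :
    IsCompl' 𝕜 (Xsp 𝕜 r μ) (Vsp 𝕜 r S) := by
  choose Q hQ hQn using LimRel.exists (𝕜 := 𝕜) (μ := μ) S hr
  refine ⟨JJ S μ hr, LinearMap.mkContinuous
    { toFun := Q
      map_add' := fun g g' => (hQ _).unique S ((hQ g).add S (hQ g'))
      map_smul' := fun c g => (hQ _).unique S ((hQ g).smul S c) } 1 ?_, ?_⟩
  · intro g
    rw [one_mul]
    exact hQn g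
  · intro f
    exact (hQ _).unique S (LimRel.JJ S hr f)

end Pool.Agent.Work.MP_cd69b0_an
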