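import Mathlib
import Pool.Agent.Work.MP_cd69b0_an.Complemented

open scoped ENNReal Topology NNReal
open MeasureTheory Filter TopologicalSpace

set_option linter.unusedSectionVars false

namespace Pool.Agent.Work.MP_cd69b0_an

section embed

variable {𝕜 : Type*} [RCLike 𝕜] {r : ℝ≥0∞} [hr1 : Fact (1 ≤ r)]
variable {Ω : Type*} [mΩ : MeasurableSpace Ω] {μ : Measure Ω} [IsProbabilityMeasure μ]

theorem piL_iotaL (hr : r ≠ ∞) {e : Ω → ℕ} (he : Measurable e) (hpos : ∀ k, 0 < atomR μ e k)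
    (N : ℕ) (x : El 𝕜 r N) : piL μ hr he N (iotaL μ hr he N x) = x := by
  have hp := toReal_pos_of hr
  ext b
  rw [piL_apply]
  have h1 : ∫ s in e ⁻¹' {(b : ℕ)}, iotaL μ hr he N x s ∂μ
      = atomR μ e b • stepVal μ e N x b := by
    have h2 : ∫ s in e ⁻¹' {(b : ℕ)}, iotaL μ hr he N x s ∂μ
        = ∫ _ in e ⁻¹' {(b : ℕ)}, stepVal μ e N x b ∂μ := by
      refine setIntegral_congr_ae (he (measurableSet_singleton _)) ?_
      filter_upwards [coeFn_iotaL μ hr he N x] with s hs hb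
      have : e s = b := hb
      rw [hs, this]
    rw [h2, setIntegral_const]
    rfl
  rw [h1, stepVal, dif_pos b.2, RCLike.real_smul_eq_coe_mul]
  have h3 : atomR μ e b ^ (1 / r.toReal - 1) * (atomR μ e b * atomR μ e b ^ (-(1 / r.toReal)))
      = 1 := by
    rw [← mul_assoc, ← Real.rpow_add_one (hpos b).ne', ← Real.rpow_add (hpos b)]
    simp
  have h4 := congrArg (fun y : ℝ => (y : 𝕜)) h3
  push_cast at h4
  calc _ = (((atomR μ e b ^ (1 / r.toReal - 1) : ℝ) : 𝕜) * (((atomR μ e b : ℝ) : 𝕜) *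
        ((atomR μ e b ^ (-(1 / r.toReal)) : ℝ) : 𝕜))) * x ⟨(b : ℕ), b.2⟩ := by ring
    _ = x b := by rw [h4, one_mul]

/-- Values of the embedding `B_{r,∞} → L_∞(L_r)`. -/
noncomputable def embFun (μ : Measure Ω) [IsProbabilityMeasure μ] (hr : r ≠ ∞) {e : Ω → ℕ}
    (he : Measurable e) (x : Binf 𝕜 r) (k : ℕ) : Lp 𝕜 r μ :=
  iotaL μ hr he (k.succPNat : ℕ) (x k.succPNat)

theorem norm_embFun_le (hr : r ≠ ∞) {e : Ω → ℕ} (he : Measurable e) (x : Binf 𝕜 r) (k : ℕ) :
    ‖embFun μ hr he x k‖ ≤ ‖x‖ := by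
  have h := (iotaL (𝕜 := 𝕜) μ hr he (k.succPNat : ℕ)).le_of_opNorm_le
    (norm_iotaL_le μ hr he _) (x k.succPNat)
  rw [one_mul] at h
  exact h.trans (lp.norm_apply_le_norm ENNReal.top_ne_zero x _)

theorem memLp_emb (hr : r ≠ ∞) {e : Ω → ℕ} (he : Measurable e) (x : Binf 𝕜 r) :
    MemLp (fun t => embFun μ hr he x (e t)) ∞ μ := by
  have h : StronglyMeasurable fun k : ℕ => embFun μ hr he x k := StronglyMeasurable.of_discrete
  exact memLp_top_of_bound (h.comp_measurable he).aestronglyMeasurable ‖x‖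
    (Eventually.of_forall fun t => norm_embFun_le hr he x (e t))

/-- The embedding `B_{r,∞} → L_∞(L_r)`. -/
noncomputable def embL (μ : Measure Ω) [IsProbabilityMeasure μ] (hr : r ≠ ∞) {e : Ω → ℕ}
    (he : Measurable e) : Binf 𝕜 r →L[𝕜] Xsp 𝕜 r μ :=
  LinearMap.mkContinuous
    { toFun := fun x => (memLp_emb hr he x).toLp _
      map_add' := fun x y => by
        rw [← MemLp.toLp_add]
        refine MemLp.toLp_congr _ _ (Eventually.of_forall fun t => ?_)
        exact map_add (iotaL μ hr he _) (x _) (y _)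
      map_smul' := fun c x => by
        rw [RingHom.id_apply, ← MemLp.toLp_const_smul]
        refine MemLp.toLp_congr _ _ (Eventually.of_forall fun t => ?_)
        exact map_smul (iotaL μ hr he _) c (x _) }
    1 (fun x => by
      rw [one_mul]
      show ‖(memLp_emb hr he x).toLp _‖ ≤ ‖x‖
      rw [Lp.norm_toLp]
      refine ENNReal.toReal_le_of_le_ofReal (norm_nonneg _) ?_
      rw [eLpNorm_exponent_top]
      exact eLpNormEssSup_le_of_ae_bound
        (Eventually.of_forall fun t => norm_embFun_le hr he x (e t)))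

theorem avgL_embL (hr : r ≠ ∞) {e : Ω → ℕ} (he : Measurable e) (hpos : ∀ k, 0 < atomR μ e k)
    (x : Binf 𝕜 r) (k : ℕ) : avgL μ (e ⁻¹' {k}) (embL μ hr he x) = embFun μ hr he x k := by
  rw [avgL_apply]
  have h2 : ∫ t in e ⁻¹' {k}, embL μ hr he x t ∂μ
      = ∫ _ in e ⁻¹' {k}, embFun μ hr he x k ∂μ := by
    refine setIntegral_congr_ae (he (measurableSet_singleton _)) ?_
    filter_upwards [MemLp.coeFn_toLp (memLp_emb (μ := μ) hr he x)] with s hs hb
    have h3 : e s = k := hb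
    rw [h3] at hs
    exact hs
  have h4 : μ.real (e ⁻¹' {k}) ≠ 0 := (hpos k).ne'
  rw [h2, setIntegral_const, smul_smul, inv_mul_cancel₀ h4, one_smul]

/-- `B_{r,∞}` is complemented in `L_∞(L_r)`. -/
theorem compl_Xsp (hr : r ≠ ∞) {e : Ω → ℕ} (he : Measurable e) (hpos : ∀ k, 0 < atomR μ e k) :
    IsCompl' 𝕜 (Binf 𝕜 r) (Xsp 𝕜 r μ) := by
  refine ⟨embL μ hr he, lpLift (fun n : ℕ+ => (piL μ hr he (n : ℕ)).comp
    (avgL μ (e ⁻¹' {n.natPred}))) 1 fun n => ?_, fun x => ?_⟩
  · exact (ContinuousLinearMap.opNorm_comp_le _ _).trans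
      (mul_le_one₀ (norm_piL_le _ _ _ _) (norm_nonneg _) (norm_avgL_le _ _))
  · ext n : 2
    rw [lpLift_apply, ContinuousLinearMap.comp_apply, avgL_embL hr he hpos]
    have h : ∀ m : ℕ+, m = n → piL μ hr he (n : ℕ) (iotaL μ hr he (m : ℕ) (x m)) = x n := by
      rintro m rfl
      exact piL_iotaL hr he hpos _ _
    exact h _ (PNat.succPNat_natPred n)

end embed

section unitInterval

theorem gen_aux (m : MeasurableSpace unitInterval)
    (h : ∀ n : ℕ, @Measurable _ _ m ⊤ (fun t : unitInterval => ⌊(2 : ℝ) ^ n * t⌋₊)) :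
    @Measurable _ _ m _ (fun t : unitInterval => (t : ℝ)) := by
  refine @measurable_of_tendsto_metrizable unitInterval ℝ m _ _ _ _
    (fun n t => (⌊(2 : ℝ) ^ n * t⌋₊ : ℝ) / 2 ^ n) (fun t => (t : ℝ)) (fun n => ?_) ?_
  · have h3 : Measurable fun k : ℕ => (k : ℝ) / 2 ^ n := measurable_of_countable _
    exact h3.comp (h n)
  · rw [tendsto_pi_nhds]
    intro t
    have h4 : Tendsto (fun n : ℕ => (2 : ℝ) ^ n) atTop atTop :=
      tendsto_pow_atTop_atTop_of_one_lt one_lt_two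
    have h5 := (tendsto_nat_floor_mul_div_atTop (R := ℝ) (a := (t : ℝ)) t.2.1).comp h4
    refine h5.congr fun n => ?_
    simp only [Function.comp_apply]
    rw [mul_comm]

/-- The dyadic scale on `[0,1]`. -/
noncomputable def dyadic : Scale unitInterval where
  d n t := ⌊(2 : ℝ) ^ n * t⌋₊
  N n := 2 ^ n + 1
  meas n := Nat.measurable_floor.comp (by fun_prop)
  lt n t := by
    rw [Nat.floor_lt (by have := t.2.1; positivity)]
    push_cast
    have := t.2.2
    nlinarith [pow_pos (two_pos : (0 : ℝ) < 2) n]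
  mono n := by
    refine ⟨fun k => k / 2, fun t => ?_⟩
    have h := Nat.floor_div_natCast ((2 : ℝ) ^ (n + 1) * t) 2
    show _ = ⌊(2 : ℝ) ^ (n + 1) * (t : ℝ)⌋₊ / 2
    rw [← h]
    congr 1
    rw [pow_succ]
    push_cast
    ring
  gen := by
    have h1 := gen_aux (⨆ n, MeasurableSpace.comap
        (fun t : unitInterval => ⌊(2 : ℝ) ^ n * t⌋₊) ⊤) fun n => by
      refine Measurable.mono (comap_measurable _) ?_ le_rfl
      exact le_iSup (fun n => MeasurableSpace.comap
        (fun t : unitInterval => ⌊(2 : ℝ) ^ n * t⌋₊) ⊤) n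
    have h6 := h1.comap_le
    exact h6

/-- A measurable map with fibres of positive measure. -/
noncomputable def eMap (t : unitInterval) : ℕ := ⌊((t : ℝ))⁻¹⌋₊ - 1

theorem measurable_eMap : Measurable eMap := by
  have h : Measurable fun t : unitInterval => ⌊((t : ℝ))⁻¹⌋₊ :=
    Nat.measurable_floor.comp (measurable_subtype_coe.inv)
  exact (measurable_of_countable fun k : ℕ => k - 1).comp h

theorem atomR_eMap_pos (k : ℕ) : 0 < atomR (volume : Measure unitInterval) eMap k := by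
  have ha : (0 : ℝ) < 1 / ((k : ℝ) + 2) := by positivity
  have hb : (1 : ℝ) / ((k : ℝ) + 1) ≤ 1 := by
    rw [div_le_one (by positivity)]; linarith [(Nat.cast_nonneg k : (0 : ℝ) ≤ k)]
  have hab : (1 : ℝ) / ((k : ℝ) + 2) < 1 / ((k : ℝ) + 1) :=
    one_div_lt_one_div_of_lt (by positivity) (by linarith)
  set a : unitInterval := ⟨1 / ((k : ℝ) + 2), ha.le, (hab.le.trans hb)⟩
  set b : unitInterval := ⟨1 / ((k : ℝ) + 1), (ha.trans hab).le, hb⟩
  have hsub : Set.Ioo a b ⊆ eMap ⁻¹' {k} := by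
    rintro t ⟨h1, h2⟩
    have h1' : 1 / ((k : ℝ) + 2) < t := h1
    have h2' : (t : ℝ) < 1 / ((k : ℝ) + 1) := h2
    have ht : (0 : ℝ) < t := ha.trans h1'
    have h3 : ⌊((t : ℝ))⁻¹⌋₊ = k + 1 := by
      rw [Nat.floor_eq_iff (by positivity)]
      push_cast
      constructor
      · rw [le_inv_comm₀ (by positivity) ht]
        rw [one_div] at h2'
        exact h2'.le
      · rw [inv_lt_comm₀ ht (by positivity)]
        rw [one_div] at h1'
        have h5 : (k : ℝ) + 1 + 1 = k + 2 := by ring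
        rw [h5]
        exact h1'
    simp [eMap, h3]
  have h4 : 0 < (volume : Measure unitInterval) (eMap ⁻¹' {k}) := by
    refine lt_of_lt_of_le ?_ (measure_mono hsub)
    rw [unitInterval.volume_Ioo]
    simp only [ENNReal.ofReal_pos, sub_pos]
    exact hab
  rw [atomR, measureReal_def]
  exact ENNReal.toReal_pos h4.ne' (measure_ne_top _ _)

end unitInterval

/-- The positive answer to Q1. -/
theorem main {𝕜 : Type*} [RCLike 𝕜] {r : ℝ≥0∞} [Fact (1 ≤ r)] (hr : r ≠ ∞) :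
    Nonempty (Xsp 𝕜 r (volume : Measure unitInterval) ≃L[𝕜] Binf 𝕜 r) := by
  refine equiv_Binf hr ?_ (compl_Xsp hr measurable_eMap atomR_eMap_pos)
  refine (compl_Vsp dyadic hr).trans ?_
  refine Bsp.compl hr (fun p : ℕ × ℕ => dyadic.N p.1) (fun p : ℕ × ℕ => p.2 + 1)
    (fun p => (p.2, Nat.pair p.1 (dyadic.N p.1))) ?_ ?_
  · rintro ⟨n, a⟩ ⟨m, b⟩ h
    simp only [Prod.mk.injEq, Nat.pair_eq_pair] at h
    simp [h]
  · intro p
    exact (Nat.right_le_pair _ _).trans (Nat.le_succ _)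

end Pool.Agent.Work.MP_cd69b0_an
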